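import Pool.Agent.H54.CT.St

/-!
# [H54 CT FK] POLY for the star with three leaves and labels `3, 3, 4`
-/

set_option autoImplicit false

namespace Pool.Agent.H54.CT

open CoxeterSystem Pool.H8.CDW Pool.Agent.H52.PAG Pool.Agent.H75.INF Pool.Agent.H54.TF Pool.Agent.H2.UF Pool.Agent.H54.AF
  Pool.Agent.H54.BS Pool.Agent.H52.VK Pool.Agent.H34.TG Pool.Agent.H88.DT

variable {B : Type} {M : CoxeterMatrix B}

section

variable {e : B ≃ Fin 4} (h : ∀ i j, M i j = lf (e i) (e j)) {F : Fold M St5} (hF : FaV (ivS e h) F)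
include hF

theorem frk_a {i : Fin 4} (hi : i ≠ 0) {t : Fin 5} (ht : qf t = i) {x : Art M} (hx : x ∈ ap M ({e.symm 0}ᶜ : Set B))
    (h1 : F.fa x ∈ ap St5 ({t}ᶜ : Set (Fin 5))) : x ∈ ap M ({e.symm i}ᶜ : Set B) := by
  subst ht
  refine dsc (ivS e h) hF (r := e.symm 0) (J := {e.symm (qf t)}) ?_ ?_ ?_ hx (t := t) rfl h1
  · rintro _ rfl j hj hj0
    rw [h, e.apply_symm_apply]
    have h2 : e j ≠ qf t := fun e' => hj (by rw [← e', e.symm_apply_apply]; rfl)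
    have h3 : e j ≠ 0 := fun e' => hj0 (by rw [← e', e.symm_apply_apply])
    have h4 : ∀ i j : Fin 4, i ≠ 0 → j ≠ i → j ≠ 0 → lf i j = 2 := by decide
    exact h4 _ _ hi h2 h3
  · intro h2
    exact hi (e.symm.injective h2).symm
  · have h2 : ∀ i : Fin 4, i ≠ 0 → ∃ k : Fin 5, k ≠ 0 ∧ qf k ≠ i := by decide
    obtain ⟨k, hk, hk2⟩ := h2 _ hi
    exact fin_sub hk fun h3 => hk2 (e.symm.injective h3)

theorem frk_b {i : Fin 4} (hi : i ≠ 0) {x : Art M} (hx : x ∈ ap M ({e.symm i}ᶜ : Set B))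
    (h1 : F.fa x ∈ ap St5 ({0}ᶜ : Set (Fin 5))) : x ∈ ap M ({e.symm 0}ᶜ : Set B) := by
  have h5 : (ivS e h).pi 0 = e.symm 0 := rfl
  have h6 := dsc (ivS e h) hF (r := e.symm i) (J := {e.symm i}ᶜ) (fun a _ j hj hj' => absurd hj' fun h3 => hj h3)
    (fun h3 => h3 rfl) ?_ hx (t := 0) ?_ h1
  · rwa [h5] at h6
  · have h2 : ∀ i : Fin 4, i ≠ 0 → ∃ k : Fin 5, k ≠ 0 ∧ qf k = i := by decide
    obtain ⟨k, hk, hk2⟩ := h2 _ hi
    refine fin_sub hk fun h3 => h3 ?_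
    show e.symm (qf k) = e.symm i
    rw [hk2]
  · rw [h5]
    exact fun h3 => hi (e.symm.injective h3).symm

theorem gs_frk {i : Fin 4} (hi : i ≠ 0) : GS M Set.univ (e.symm 0) (e.symm i) := by
  have h2 : ∀ i : Fin 4, i ≠ 0 → ∃ k : Fin 5, k ≠ 0 ∧ qf k = i := by decide
  obtain ⟨t, ht0, ht⟩ := h2 i hi
  have h3 : (3 : ℕ) ≤ St5 0 t := (star_st5.cen t ht0).ge
  refine gs_of hF (s := 0) (t := t) rfl (by show e.symm (qf t) = _; rw [ht]) (gs_star star_st5 h3) ?_ ?_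
  · intro x hx h1
    exact frk_a h hF hi ht hx h1
  · intro x hx h1
    exact frk_b h hF hi hx h1

theorem gir_frk : Gir (ap M ({e.symm 3}ᶜ : Set B)) (ap M ({e.symm 0}ᶜ : Set B)) 4 := by
  have h31 : St5 3 0 = 3 := by
    have h1 : l5 3 0 = 3 := by decide
    exact h1
  have h41 : St5 4 0 = 3 := by
    have h1 : l5 4 0 = 3 := by decide
    exact h1
  refine six_of hF (b1 := 3) (b2 := 4) (c1 := 0) rfl rfl rfl st5_ne h31.ge (gs_star star_st5 h31.ge) (gs_star star_st5 h41.ge)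
    {3} rfl (by decide) (by decide) ?_ ?_ ?_ ?_
  · rintro _ rfl j hj hj0
    have h1 : ∀ j, j ≠ 3 → j ≠ 0 → l5 3 j = 2 := by decide
    exact h1 j hj hj0
  · intro g hg h1
    exact frk_a h hF (by decide) (t := 3) rfl hg h1
  · intro g hg h1
    exact frk_b h hF (by decide) hg h1
  · intro g hg h1
    exact frk_a h hF (by decide) (t := 4) rfl hg h1

end

/-- POLY for the star with three leaves -/
theorem pfrk (B : Type) (M : CoxeterMatrix B) (h : Frk M) : PolF M Set.univ := by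
  obtain ⟨e, he⟩ := h
  have hv : ∀ i j, M i j = lf (e i) (e j) := by
    intro i j
    unfold lf
    by_cases hij : i = j
    · rw [hij, if_pos rfl, M.diagonal]
    · rw [if_neg fun h1 => hij (e.injective h1), he i j hij]
  have h4 : ∀ i j, M i j ≠ 0 ∧ M i j ≤ 4 := by
    intro i j
    rw [hv]
    have h1 : ∀ i j, lf i j ≠ 0 ∧ lf i j ≤ 4 := by decide
    exact h1 _ _
  have h3 : ∀ b c, 3 ≤ M b c → (b = e.symm 0 ∧ ∃ i, i ≠ 0 ∧ c = e.symm i) ∨ (c = e.symm 0 ∧ ∃ i, i ≠ 0 ∧ b = e.symm i) := by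
    intro b c hbc
    rw [hv] at hbc
    have h1 : ∀ i j, 3 ≤ lf i j → (i = 0 ∧ j ≠ 0) ∨ (j = 0 ∧ i ≠ 0) := by decide
    rcases h1 _ _ hbc with ⟨h5, h6⟩ | ⟨h5, h6⟩
    · exact Or.inl ⟨by rw [← h5, e.symm_apply_apply], _, h6, by rw [e.symm_apply_apply]⟩
    · exact Or.inr ⟨by rw [← h5, e.symm_apply_apply], _, h6, by rw [e.symm_apply_apply]⟩
  obtain ⟨F, hF⟩ := exists_fold (ivS e hv)
  refine polF_tree (fun i j => (h4 i j).1) (fun i j => (h4 i j).2.trans (by norm_num)) (star_forest (o := e.symm 0) ?_) ?_ ?_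
  · intro b c hb hc hbc
    rw [hv]
    have h1 : ∀ i j, i ≠ 0 → j ≠ 0 → i ≠ j → lf i j = 2 := by decide
    refine h1 _ _ (fun h5 => hb ?_) (fun h5 => hc ?_) fun h5 => hbc (e.injective h5)
    · rw [← h5, e.symm_apply_apply]
    · rw [← h5, e.symm_apply_apply]
  · intro b c hbc
    rcases h3 b c hbc with ⟨rfl, i, hi, rfl⟩ | ⟨rfl, i, hi, rfl⟩
    · exact gs_frk hv hF hi
    · exact gs_of_gir le_rfl (gir_of_gs (gs_frk hv hF hi)).symm
  · intro b c hbc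
    have h5 : M b c = 4 := by
      have := (h4 b c).2
      omega
    have h6 : ∀ i, i ≠ 0 → lf 0 i = 4 → i = 3 := by decide
    rcases h3 b c (by omega) with ⟨rfl, i, hi, rfl⟩ | ⟨rfl, i, hi, rfl⟩
    · rw [hv, e.apply_symm_apply, e.apply_symm_apply] at h5
      rw [h6 i hi h5]
      exact (gir_frk hv hF).symm
    · rw [M.symmetric, hv, e.apply_symm_apply, e.apply_symm_apply] at h5
      rw [h6 i hi h5]
      exact gir_frk hv hF

end Pool.Agent.H54.CT
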