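import Pool.Agent.H54.CT.Cd
import Pool.Agent.H54.BS.Gop
import Pool.Agent.H54.TF.Adp

/-!
# [H54 CT CC] The circuit (45 min)

`cir_ac`: the number is `2 * n ≥ 4`, `e z = (z.1 : ZMod (2 * n))`: `Equiv.ofBijective`: injective: `(ZMod.intCast_eq_intCast_iff_dvd_sub)`: `2 n ∣ w - z` and `|w - z| < 2 n` give `z = w`; surjective: `k : ZMod (2 n)`, `k.val < 2 n`: `z = k.val` if `k.val ≤ n`,
otherwise `k.val - 2 n` (`ZMod.natCast_zmod_val`, `NeZero (2 * n)`). Labels: `e w = e z + 1` iff `2 n ∣ w - z - 1` iff `w - z = 1` or `w - z = 1 - 2 n` (`|w - z - 1| ≤ 2 n`, `w - z - 1 = 2 n k`, `k ∈ {0, -1}`; `k = 1` would need `w - z = 2 n + 1`), similarly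
for the other order: so `3` iff `|z - w| = 1` or `|z - w| = 2 n - 1` (`ac_apply`).
`gs_ac`: `hc _ _ (cir_ac hn) : PolF (Ac n) univ`; `gir_of_polF` with `lab (Ac n s t) = lab 3 = 3`; `gs_of_gir`.
-/

set_option autoImplicit false

namespace Pool.Agent.H54.CT

open Pool.H8.CDW Pool.Agent.H52.PAG Pool.Agent.H75.INF Pool.Agent.H54.TF Pool.Agent.H54.AF Pool.Agent.H54.BS Pool.Agent.H52.VK Pool.Agent.H34.TG

private theorem cc_dvd {n : ℕ} (hn : 2 ≤ n) {x : ℤ} (h1 : -(2 * (n : ℤ)) < x - 1) (h2 : x - 1 < 2 * n) :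
    ((2 * n : ℕ) : ℤ) ∣ x ↔ x = 0 ∨ x = 2 * n := by
  have hn' : (2 : ℤ) ≤ n := by exact_mod_cast hn
  push_cast
  constructor
  · rintro ⟨k, hk⟩
    have hk0 : -1 < k := by
      by_contra h
      have : k ≤ -1 := by omega
      nlinarith
    have hk2 : k < 2 := by
      by_contra h
      have : 2 ≤ k := by omega
      nlinarith
    obtain rfl | rfl : k = 0 ∨ k = 1 := by omega
    · left
      rw [hk, mul_zero]
    · right
      rw [hk, mul_one]
  · rintro (h | h)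
    · rw [h]
      exact dvd_zero _
    · rw [h]

private theorem cc_succ {n : ℕ} (hn : 2 ≤ n) (z w : Cn n) :
    ((w.1 : ZMod (2 * n)) = (z.1 : ZMod (2 * n)) + 1) ↔ z.1 - w.1 = -1 ∨ z.1 - w.1 = 2 * n - 1 := by
  have hz := z.2
  have hw := w.2
  have h1 : ((w.1 : ZMod (2 * n)) = (z.1 : ZMod (2 * n)) + 1) ↔
      ((w.1 : ℤ) : ZMod (2 * n)) = ((z.1 + 1 : ℤ) : ZMod (2 * n)) := by
    push_cast
    exact Iff.rfl
  rw [h1, ZMod.intCast_eq_intCast_iff_dvd_sub, cc_dvd hn (by omega) (by omega)]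
  omega

theorem cir_ac {n : ℕ} (hn : 2 ≤ n) : Cir (Ac n) := by
  have hne : NeZero (2 * n) := ⟨by omega⟩
  have hbij : Function.Bijective (fun z : Cn n => ((z.1 : ℤ) : ZMod (2 * n))) := by
    constructor
    · intro z w h
      have h1 := (ZMod.intCast_eq_intCast_iff_dvd_sub z.1 w.1 (2 * n)).1 h
      have hz := z.2
      have hw := w.2
      have h2 : w.1 - z.1 = 0 := by
        refine Int.eq_zero_of_abs_lt_dvd h1 ?_
        rw [abs_lt]
        push_cast
        omega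
      apply Subtype.ext
      omega
    · intro k
      have hk : k.val < 2 * n := ZMod.val_lt k
      have hc : ((k.val : ℕ) : ZMod (2 * n)) = k := ZMod.natCast_zmod_val k
      rcases Nat.lt_or_ge n k.val with h | h
      · refine ⟨⟨(k.val : ℤ) - 2 * n, by omega, by omega⟩, ?_⟩
        show (((k.val : ℤ) - 2 * n : ℤ) : ZMod (2 * n)) = k
        have h0 : (((2 * n : ℕ) : ℤ) : ZMod (2 * n)) = 0 := by
          rw [Int.cast_natCast]
          exact ZMod.natCast_self _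
        have h1 : ((k.val : ℤ) - 2 * n : ℤ) = (k.val : ℤ) - ((2 * n : ℕ) : ℤ) := by push_cast; ring
        rw [h1, Int.cast_sub, h0, sub_zero, Int.cast_natCast, hc]
      · refine ⟨⟨(k.val : ℤ), by omega, by omega⟩, ?_⟩
        show (((k.val : ℤ) : ℤ) : ZMod (2 * n)) = k
        rw [Int.cast_natCast, hc]
  refine ⟨2 * n, by omega, Equiv.ofBijective _ hbij, fun z w hzw => ?_⟩
  rw [ac_apply hzw]
  have h1 := cc_succ hn z w
  have h2 := cc_succ hn w z
  have hz := z.2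
  have hw := w.2
  have h3 : (|z.1 - w.1| = 1 ∨ |z.1 - w.1| = 2 * n - 1) ↔
      (Equiv.ofBijective _ hbij w = Equiv.ofBijective _ hbij z + 1 ∨
        Equiv.ofBijective _ hbij z = Equiv.ofBijective _ hbij w + 1) := by
    rw [Equiv.ofBijective_apply, Equiv.ofBijective_apply, h1, h2]
    rcases abs_cases (z.1 - w.1) with ⟨h4, h5⟩ | ⟨h4, h5⟩ <;> rw [h4] <;> omega
  simp only [h3]

theorem gs_ac (hc : PCir) {n : ℕ} (hn : 2 ≤ n) {s t : Cn n} (h : Ac n s t = 3) : GS (Ac n) Set.univ s t := by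
  have hst : s ≠ t := by
    rintro rfl
    rw [(Ac n).diagonal] at h
    omega
  have h1 := gir_of_polF (hc _ _ (cir_ac hn)) (Set.mem_univ s) (Set.mem_univ t) hst
  rw [h] at h1
  exact gs_of_gir (m := lab 3) le_rfl h1

end Pool.Agent.H54.CT
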