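import Pool.Agent.H54.TF.Adp
import Pool.Agent.H54.TF.Pt
import Pool.Agent.H2.UF.Cyc

/-!
# [H54 CT CYC] Six-cycles from four-cycles, local form of `no_cyc` (helper76, helper2)
-/

set_option autoImplicit false

namespace Pool.Agent.H54.CT

open CoxeterSystem Pool.H8.CDW Pool.Agent.H52.PAG Pool.Agent.H75.INF Pool.Agent.H34.TG Pool.Agent.H54.TF

private theorem comm_ap {B : Type} {M : CoxeterMatrix B} {S₁ S₂ : Set B} (h2 : ∀ i ∈ S₁, ∀ j ∈ S₂, M i j = 2) {x y : Art M}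
    (hx : x ∈ ap M S₁) (hy : y ∈ ap M S₂) : Commute x y := by
  have h0 : ∀ i ∈ S₁, ∀ j ∈ S₂, Commute (gen M i) (gen M j) := by
    intro i hi j hj
    have h3 : M i j ≠ 0 := by
      rw [h2 i hi j hj]
      exact two_ne_zero
    have h4 := gen_rel h3
    rw [h2 i hi j hj] at h4
    change gen M i * (gen M j * 1) = gen M j * (gen M i * 1) at h4
    rw [mul_one, mul_one] at h4
    exact h4
  have h1 : ∀ j ∈ S₂, Commute x (gen M j) := by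
    intro j hj
    refine ap_induction (P := fun x => Commute x (gen M j)) ?_ ?_ ?_ hx
    · exact Commute.one_left _
    · intro x _ k hk h
      exact h.mul_left (h0 k hk j hj)
    · intro x _ k hk h
      exact h.mul_left (h0 k hk j hj).inv_left
  refine ap_induction (P := fun y => Commute x y) ?_ ?_ ?_ hy
  · exact Commute.one_right _
  · intro y _ k hk h
    exact h.mul_right (h1 k hk)
  · intro y _ k hk h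
    exact h.mul_right (h1 k hk).inv_right

private theorem dec_ap {B : Type} {M : CoxeterMatrix B} {S₁ S₂ : Set B} (h2 : ∀ i ∈ S₁, ∀ j ∈ S₂, M i j = 2) {x : Art M}
    (hx : x ∈ ap M (S₁ ∪ S₂)) : ∃ x₁ ∈ ap M S₁, ∃ x₂ ∈ ap M S₂, x = x₁ * x₂ := by
  refine ap_induction (P := fun x => ∃ x₁ ∈ ap M S₁, ∃ x₂ ∈ ap M S₂, x = x₁ * x₂) ?_ ?_ ?_ hx
  · exact ⟨1, one_mem _, 1, one_mem _, (mul_one _).symm⟩
  · rintro x _ k hk ⟨x₁, h1, x₂, h3, rfl⟩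
    rcases hk with hk | hk
    · refine ⟨x₁ * gen M k, mul_mem h1 (gen_mem_ap hk), x₂, h3, ?_⟩
      rw [mul_assoc, mul_assoc, (comm_ap h2 (gen_mem_ap hk) h3).eq]
    · exact ⟨x₁, h1, x₂ * gen M k, mul_mem h3 (gen_mem_ap hk), mul_assoc _ _ _⟩
  · rintro x _ k hk ⟨x₁, h1, x₂, h3, rfl⟩
    rcases hk with hk | hk
    · refine ⟨x₁ * (gen M k)⁻¹, mul_mem h1 (inv_mem (gen_mem_ap hk)), x₂, h3, ?_⟩
      rw [mul_assoc, mul_assoc, (comm_ap h2 (inv_mem (gen_mem_ap hk)) h3).eq]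
    · exact ⟨x₁, h1, x₂ * (gen M k)⁻¹, mul_mem h3 (inv_mem (gen_mem_ap hk)), mul_assoc _ _ _⟩

private theorem ap_mono' {B : Type} {M : CoxeterMatrix B} {K L : Set B} (h : K ⊆ L) : ap M K ≤ ap M L :=
  Subgroup.closure_mono (Set.image_mono h)

/-- (1) -/
private theorem sep {B' : Type} {M' : CoxeterMatrix B'} {b1 c1 b2 : B'} {D : Set B'} (hb1 : b1 ∈ D) (hb2 : b2 ∉ D)
    (hc1 : c1 ∉ D) (hD : ∀ i ∈ D, ∀ j, j ∉ D → j ≠ c1 → M' i j = 2) {u v : Art M'}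
    (h : u⁻¹ * v ∈ ap M' ({c1}ᶜ : Set B')) :
    ∃ m, u⁻¹ * m ∈ ap M' ({b1}ᶜ : Set B') ∧ v⁻¹ * m ∈ ap M' ({b2}ᶜ : Set B') := by
  have e1 : ({c1}ᶜ : Set B') = ({c1}ᶜ \ D) ∪ D := by
    ext j
    simp only [Set.mem_union, Set.mem_sdiff, Set.mem_compl_iff, Set.mem_singleton_iff]
    constructor
    · intro hj
      by_cases hjD : j ∈ D
      · exact Or.inr hjD
      · exact Or.inl ⟨hj, hjD⟩
    · rintro (⟨hj, -⟩ | hj) rfl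
      · exact hj rfl
      · exact hc1 hj
  rw [e1] at h
  obtain ⟨p, hp, q, hq, hpq⟩ := dec_ap (M := M') (S₁ := {c1}ᶜ \ D) (S₂ := D) (by
    rintro i ⟨hi, hiD⟩ j hj
    rw [M'.symmetric i j]
    exact hD j hj i hiD hi) h
  have e2 : v = u * (p * q) := by rw [← hpq]; group
  refine ⟨u * p, ?_, ?_⟩
  · rw [inv_mul_cancel_left]
    refine ap_mono' ?_ hp
    rintro j ⟨-, hj⟩ rfl
    exact hj hb1
  · have e3 : v⁻¹ * (u * p) = q⁻¹ := by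
      rw [e2]
      group
    rw [e3]
    refine inv_mem (ap_mono' ?_ hq)
    rintro j hj rfl
    exact hb2 hj

/-- (2) -/
private theorem step2 {B B' : Type} {M : CoxeterMatrix B} {M' : CoxeterMatrix B'} (φ : Art M →* Art M') {b c : B} {b1 c1 b2 : B'}
    (hM' : ∀ i j, M' i j ≠ 0) (h1 : 3 ≤ M' b1 c1) (hG1 : GS M' Set.univ b1 c1)
    (D : Set B') (hb1 : b1 ∈ D) (hb2 : b2 ∉ D) (hc1 : c1 ∉ D) (hD : ∀ i ∈ D, ∀ j, j ∉ D → j ≠ c1 → M' i j = 2)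
    (e1 : ∀ g ∈ ap M ({b}ᶜ : Set B), φ g ∈ ap M' ({b1}ᶜ : Set B'))
    (e2 : ∀ g ∈ ap M ({b}ᶜ : Set B), φ g ∈ ap M' ({b2}ᶜ : Set B'))
    (e3 : ∀ g ∈ ap M ({c}ᶜ : Set B), φ g ∈ ap M' ({c1}ᶜ : Set B'))
    (k1 : ∀ g ∈ ap M ({c}ᶜ : Set B), φ g ∈ ap M' ({b1}ᶜ : Set B') → g ∈ ap M ({b}ᶜ : Set B))
    {z₀ z₁ z₂ z₃ z₄ z₅ : Art M} (h01 : z₀⁻¹ * z₁ ∈ ap M ({b}ᶜ : Set B)) (h12 : z₁⁻¹ * z₂ ∈ ap M ({c}ᶜ : Set B))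
    (h23 : z₂⁻¹ * z₃ ∈ ap M ({b}ᶜ : Set B)) (h34 : z₃⁻¹ * z₄ ∈ ap M ({c}ᶜ : Set B))
    (h45 : z₄⁻¹ * z₅ ∈ ap M ({b}ᶜ : Set B)) (h50 : z₅⁻¹ * z₀ ∈ ap M ({c}ᶜ : Set B))
    (hn : z₀⁻¹ * z₂ ∉ ap M ({b}ᶜ : Set B)) : Mt M' ({c1}ᶜ : Set B') ({b2}ᶜ : Set B') (φ z₁) (φ z₄) := by
  have hq : ∀ x y : Art M, φ (x⁻¹ * y) = (φ x)⁻¹ * φ y := fun x y => by rw [map_mul, map_inv]
  have F1 := pt hM' h1 (gc_of_gs hG1)
  have hF := F1 ({b1}ᶜ) ({b2}ᶜ) (φ z₀) (φ z₁) (φ z₂) (φ z₄) (Set.subset_univ _) (Set.subset_univ _)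
  rw [univ_diff, univ_diff] at hF
  have m12 : Mt M' ({b1}ᶜ : Set B') ({c1}ᶜ : Set B') (φ z₀) (φ z₁) :=
    ⟨φ z₁, by rw [← hq]; exact e1 _ h01, by rw [inv_mul_cancel]; exact one_mem _⟩
  have m23 : Mt M' ({c1}ᶜ : Set B') ({b1}ᶜ : Set B') (φ z₁) (φ z₂) :=
    ⟨φ z₂, by rw [← hq]; exact e3 _ h12, by rw [inv_mul_cancel]; exact one_mem _⟩
  have m34 : Mt M' ({b1}ᶜ : Set B') ({b2}ᶜ : Set B') (φ z₂) (φ z₄) := by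
    obtain ⟨m, hm1, hm2⟩ := sep hb1 hb2 hc1 hD (u := φ z₃) (v := φ z₄) (by rw [← hq]; exact e3 _ h34)
    refine ⟨m, ?_, hm2⟩
    have e : (φ z₂)⁻¹ * m = ((φ z₂)⁻¹ * φ z₃) * ((φ z₃)⁻¹ * m) := by group
    rw [e, ← hq]
    exact mul_mem (e1 _ h23) hm1
  have m41 : Mt M' ({b2}ᶜ : Set B') ({b1}ᶜ : Set B') (φ z₄) (φ z₀) := by
    obtain ⟨m, hm1, hm2⟩ := sep hb1 hb2 hc1 hD (u := φ z₀) (v := φ z₅) (by
      rw [← hq]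
      have e : z₀⁻¹ * z₅ = (z₅⁻¹ * z₀)⁻¹ := by group
      rw [e]
      exact e3 _ (inv_mem h50))
    refine ⟨m, ?_, hm1⟩
    have e : (φ z₄)⁻¹ * m = ((φ z₄)⁻¹ * φ z₅) * ((φ z₅)⁻¹ * m) := by group
    rw [e, ← hq]
    exact mul_mem (e2 _ h45) hm2
  rcases hF m12 m23 m34 m41 with ⟨m, hm1, hm2⟩ | h
  · exfalso
    apply hn
    have e0 : z₀⁻¹ * z₂ = (z₀⁻¹ * z₁) * (z₁⁻¹ * z₂) := by group
    rw [e0]
    refine mul_mem h01 (k1 _ h12 ?_)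
    rw [hq]
    have e : (φ z₁)⁻¹ * φ z₂ = ((φ z₀)⁻¹ * φ z₁)⁻¹ * (((φ z₀)⁻¹ * m) * ((φ z₂)⁻¹ * m)⁻¹) := by group
    rw [e]
    refine mul_mem (inv_mem ?_) (mul_mem hm1 (inv_mem hm2))
    rw [← hq]
    exact e1 _ h01
  · exact h

/-- no closed paths of length six; the descent is only needed for elements of the parabolic subgroups -/
theorem cyc_loc {B B' : Type} {M : CoxeterMatrix B} {M' : CoxeterMatrix B'} (φ : Art M →* Art M') {b c : B} {b1 c1 b2 : B'}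
    (hM' : ∀ i j, M' i j ≠ 0) (h1 : 3 ≤ M' b1 c1) (hG1 : GS M' Set.univ b1 c1) (hG2 : GS M' Set.univ b2 c1)
    (D : Set B') (hb1 : b1 ∈ D) (hb2 : b2 ∉ D) (hc1 : c1 ∉ D) (hD : ∀ i ∈ D, ∀ j, j ∉ D → j ≠ c1 → M' i j = 2)
    (e1 : ∀ g ∈ ap M ({b}ᶜ : Set B), φ g ∈ ap M' ({b1}ᶜ : Set B'))
    (e2 : ∀ g ∈ ap M ({b}ᶜ : Set B), φ g ∈ ap M' ({b2}ᶜ : Set B'))
    (e3 : ∀ g ∈ ap M ({c}ᶜ : Set B), φ g ∈ ap M' ({c1}ᶜ : Set B'))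
    (k1 : ∀ g ∈ ap M ({c}ᶜ : Set B), φ g ∈ ap M' ({b1}ᶜ : Set B') → g ∈ ap M ({b}ᶜ : Set B))
    (k2 : ∀ g ∈ ap M ({b}ᶜ : Set B), φ g ∈ ap M' ({c1}ᶜ : Set B') → g ∈ ap M ({c}ᶜ : Set B))
    (k3 : ∀ g ∈ ap M ({c}ᶜ : Set B), φ g ∈ ap M' ({b2}ᶜ : Set B') → g ∈ ap M ({b}ᶜ : Set B))
    (x y : ℕ → Art M) (hx : ∀ r < 3, x r ∈ ap M ({b}ᶜ : Set B) ∧ x r ∉ ap M ({c}ᶜ : Set B))
    (hy : ∀ r < 3, y r ∈ ap M ({c}ᶜ : Set B) ∧ y r ∉ ap M ({b}ᶜ : Set B)) : alp x y 3 ≠ 1 := by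
  intro he
  have hq : ∀ x y : Art M, φ (x⁻¹ * y) = (φ x)⁻¹ * φ y := fun x y => by rw [map_mul, map_inv]
  obtain ⟨hx0, hx0'⟩ := hx 0 (by norm_num)
  obtain ⟨hx1, hx1'⟩ := hx 1 (by norm_num)
  obtain ⟨hx2, hx2'⟩ := hx 2 (by norm_num)
  obtain ⟨hy0, hy0'⟩ := hy 0 (by norm_num)
  obtain ⟨hy1, hy1'⟩ := hy 1 (by norm_num)
  obtain ⟨hy2, hy2'⟩ := hy 2 (by norm_num)
  have he' : x 0 * y 0 * x 1 * y 1 * x 2 * y 2 = 1 := by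
    rw [← he]
    change _ = 1 * (x 0 * y 0) * (x 1 * y 1) * (x 2 * y 2)
    group
  obtain ⟨z₁, hz₁⟩ : ∃ z, z = x 0 := ⟨_, rfl⟩
  obtain ⟨z₂, hz₂⟩ : ∃ z, z = z₁ * y 0 := ⟨_, rfl⟩
  obtain ⟨z₃, hz₃⟩ : ∃ z, z = z₂ * x 1 := ⟨_, rfl⟩
  obtain ⟨z₄, hz₄⟩ : ∃ z, z = z₃ * y 1 := ⟨_, rfl⟩
  obtain ⟨z₅, hz₅⟩ : ∃ z, z = z₄ * x 2 := ⟨_, rfl⟩
  have hend : z₅ * y 2 = 1 := by
    rw [hz₅, hz₄, hz₃, hz₂, hz₁]
    exact he'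
  have h01 : (1 : Art M)⁻¹ * z₁ = x 0 := by rw [hz₁]; group
  have h12 : z₁⁻¹ * z₂ = y 0 := by rw [hz₂]; group
  have h23 : z₂⁻¹ * z₃ = x 1 := by rw [hz₃]; group
  have h34 : z₃⁻¹ * z₄ = y 1 := by rw [hz₄]; group
  have h45 : z₄⁻¹ * z₅ = x 2 := by rw [hz₅]; group
  have h50 : z₅⁻¹ * 1 = y 2 := by
    rw [mul_one]
    exact inv_eq_of_mul_eq_one_right hend
  have n24 : z₂⁻¹ * z₄ ∉ ap M ({b}ᶜ : Set B) := by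
    have e : z₂⁻¹ * z₄ = x 1 * y 1 := by rw [hz₄, hz₃]; group
    rw [e, Subgroup.mul_mem_cancel_left _ hx1]
    exact hy1'
  have s2 := step2 φ hM' h1 hG1 D hb1 hb2 hc1 hD e1 e2 e3 k1 (z₀ := z₂) (z₁ := z₃) (z₂ := z₄) (z₃ := z₅) (z₄ := 1) (z₅ := z₁)
    (by rw [h23]; exact hx1) (by rw [h34]; exact hy1) (by rw [h45]; exact hx2) (by rw [h50]; exact hy2)
    (by rw [h01]; exact hx0) (by rw [h12]; exact hy0) n24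
  have hG := gc_of_gs hG2 (φ 1) (φ z₁) (φ z₂) (φ z₃)
  rw [univ_diff, univ_diff] at hG
  rcases hG ⟨φ z₁, by rw [← hq, h01]; exact e2 _ hx0, by rw [inv_mul_cancel]; exact one_mem _⟩
    ⟨φ z₂, by rw [← hq, h12]; exact e3 _ hy0, by rw [inv_mul_cancel]; exact one_mem _⟩
    ⟨φ z₃, by rw [← hq, h23]; exact e2 _ hx1, by rw [inv_mul_cancel]; exact one_mem _⟩ s2 with h | h
  · refine hy0' (k3 _ hy0 ?_)
    have e : φ (y 0) = (φ (x 0))⁻¹ * ((φ 1)⁻¹ * φ z₂) := by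
      rw [hz₂, hz₁, map_mul, map_one]
      group
    rw [e]
    exact mul_mem (inv_mem (e2 _ hx0)) h
  · refine hx1' (k2 _ hx1 ?_)
    have e : φ (x 1) = (φ (y 0))⁻¹ * ((φ z₁)⁻¹ * φ z₃) := by
      rw [hz₃, hz₂, map_mul, map_mul]
      group
    rw [e]
    exact mul_mem (inv_mem (e3 _ hy0)) h

end Pool.Agent.H54.CT
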