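import Pool.Agent.H54.CT.Dn
import Pool.Agent.H54.CT.Cyc

/-!
# [H54 CT DS] Girth of the edges under a folding by an involution
-/

set_option autoImplicit false

namespace Pool.Agent.H54.CT

open Pool.H8.CDW Pool.Agent.H52.PAG Pool.Agent.H75.INF Pool.Agent.H54.TF Pool.Agent.H2.UF Pool.Agent.H34.TG Pool.Agent.H54.AF

variable {B B' : Type} {M : CoxeterMatrix B} {M' : CoxeterMatrix B'}

open Classical in
/-- the values on the generators -/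
def FaV (I : Iv M M') (F : Fold M M') : Prop := F.pi = I.pi ∧
  ∀ s, F.fa (gen M (I.pi s)) = if I.sg s = s then gen M' s else gen M' s * gen M' (I.sg s)

/-- descent for elements of `ap M {r}ᶜ`; `J` is a union of components of the complement of `r` -/
theorem dsc (I : Iv M M') {F : Fold M M'} (hF : FaV I F) {r : B} {J : Set B} (hJ : ∀ i ∈ J, ∀ j, j ∉ J → j ≠ r → M i j = 2)
    (hr : r ∉ J) (hf : Finite (resM M' (I.pi ⁻¹' J)).Group) {x : Art M} (hx : x ∈ ap M ({r}ᶜ : Set B)) {t : B'} (ht : I.pi t ∈ J)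
    (h : F.fa x ∈ ap M' ({t}ᶜ : Set B')) : x ∈ ap M ({I.pi t}ᶜ : Set B) := by
  have e : ({r}ᶜ : Set B) = J ∪ ({r}ᶜ \ J) := by
    rw [Set.union_sdiff_cancel]
    rintro j hj rfl
    exact hr hj
  rw [e] at hx
  obtain ⟨x₁, h1, x₂, h2, rfl⟩ := dec_ap (M := M) (S₁ := J) (S₂ := {r}ᶜ \ J) (fun i hi j hj => hJ i hi j hj.2 hj.1) hx
  have h3 : F.fa x₂ ∈ ap M' ({t}ᶜ : Set B') := by
    refine ap_mono ?_ (F.mem_ap h2)
    rintro s hs rfl
    rw [Set.mem_preimage, hF.1] at hs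
    exact hs.2 ht
  have h4 : F.fa x₁ ∈ ap M' ({t}ᶜ : Set B') := by
    rw [map_mul] at h
    exact (Subgroup.mul_mem_cancel_right _ h3).1 h
  have h5 := dn I F hF.2 J hf h1 ht h4
  refine mul_mem (ap_mono ?_ h5) (ap_mono ?_ h2)
  · exact fun j hj => hj.2
  · rintro j hj rfl
    exact hj.2 ht

theorem up {I : Iv M M'} {F : Fold M M'} (hF : FaV I F) (t : B') {b : B} (hb : I.pi t = b) {g : Art M} (h : g ∈ ap M ({b}ᶜ : Set B)) :
    F.fa g ∈ ap M' ({t}ᶜ : Set B') := by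
  refine ap_mono ?_ (F.mem_ap h)
  rintro s hs rfl
  rw [Set.mem_preimage, hF.1] at hs
  exact hs hb

/-- girth of an edge from the edge above -/
theorem gs_of {I : Iv M M'} {F : Fold M M'} (hF : FaV I F) {b c : B} {s t : B'} (hs : I.pi s = b) (ht : I.pi t = c)
    (hG : GS M' Set.univ s t)
    (d1 : ∀ x ∈ ap M ({b}ᶜ : Set B), F.fa x ∈ ap M' ({t}ᶜ : Set B') → x ∈ ap M ({c}ᶜ : Set B))
    (d2 : ∀ x ∈ ap M ({c}ᶜ : Set B), F.fa x ∈ ap M' ({s}ᶜ : Set B') → x ∈ ap M ({b}ᶜ : Set B)) :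
    GS M Set.univ b c := by
  intro x hx x' hx' y hy y' hy' he
  rw [univ_diff] at hx hx' hy hy'
  have e1 : ({b}ᶜ ∩ {c}ᶜ : Set B) = Set.univ \ {b, c} := by
    ext j
    simp only [Set.mem_inter_iff, Set.mem_compl_iff, Set.mem_singleton_iff, Set.mem_sdiff, Set.mem_univ, Set.mem_insert_iff, true_and,
      not_or]
  have e2 : ({t}ᶜ : Set B') ⊇ Set.univ \ {s, t} := by
    rintro j ⟨-, hj⟩ rfl
    exact hj (Or.inr rfl)
  have e3 : ({s}ᶜ : Set B') ⊇ Set.univ \ {s, t} := by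
    rintro j ⟨-, hj⟩ rfl
    exact hj (Or.inl rfl)
  have h1 := hG (F.fa x) (by rw [univ_diff]; exact up hF s hs hx) (F.fa x') (by rw [univ_diff]; exact up hF s hs hx')
    (F.fa y) (by rw [univ_diff]; exact up hF t ht hy) (F.fa y') (by rw [univ_diff]; exact up hF t ht hy')
    (by rw [← map_mul, ← map_mul, ← map_mul, he, map_one])
  rw [← e1, ← ap_inter]
  rcases h1 with h1 | h1
  · exact Or.inl ⟨hx, d1 x hx (ap_mono e2 h1)⟩
  · exact Or.inr ⟨d2 y hy (ap_mono e3 h1), hy⟩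

/-- girth of an edge with label `4` from two edges above -/
theorem six_of {I : Iv M M'} {F : Fold M M'} (hF : FaV I F) {b c : B} {b1 b2 c1 : B'} (hb1' : I.pi b1 = b) (hb2' : I.pi b2 = b)
    (hc1' : I.pi c1 = c) (hM' : ∀ i j, M' i j ≠ 0) (h1 : 3 ≤ M' b1 c1) (hG1 : GS M' Set.univ b1 c1) (hG2 : GS M' Set.univ b2 c1)
    (D : Set B') (hb1 : b1 ∈ D) (hb2 : b2 ∉ D) (hc1 : c1 ∉ D) (hD : ∀ i ∈ D, ∀ j, j ∉ D → j ≠ c1 → M' i j = 2)
    (k1 : ∀ g ∈ ap M ({c}ᶜ : Set B), F.fa g ∈ ap M' ({b1}ᶜ : Set B') → g ∈ ap M ({b}ᶜ : Set B))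
    (k2 : ∀ g ∈ ap M ({b}ᶜ : Set B), F.fa g ∈ ap M' ({c1}ᶜ : Set B') → g ∈ ap M ({c}ᶜ : Set B))
    (k3 : ∀ g ∈ ap M ({c}ᶜ : Set B), F.fa g ∈ ap M' ({b2}ᶜ : Set B') → g ∈ ap M ({b}ᶜ : Set B)) :
    Gir (ap M ({b}ᶜ : Set B)) (ap M ({c}ᶜ : Set B)) 4 := by
  intro x y k h0 h4 hx hy
  by_cases h3 : k < 3
  · have h5 := gir_of_gs (gs_of hF hb1' hc1' hG1 k2 k1)
    rw [univ_diff, univ_diff] at h5
    exact h5 x y k h0 h3 hx hy
  · obtain rfl : k = 3 := by omega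
    exact cyc_loc F.fa hM' h1 hG1 hG2 D hb1 hb2 hc1 hD (fun g hg => up hF b1 hb1' hg) (fun g hg => up hF b2 hb2' hg)
      (fun g hg => up hF c1 hc1' hg) k1 k2 k3 x y hx hy

end Pool.Agent.H54.CT
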