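import Pool.Agent.H54.CT.Cd
import Pool.Agent.H54.BS.Tre

/-!
# [H54 CT FR] The path is a forest (25 min)

`b = v i`, `c = v j` (`h.surj`), `3 ≤ M b c`: `i ≠ j` (`M.diagonal`), by `h.lab` (and `M.symmetric`) `j = i + 1` or `i = j + 1`. Case `j = i + 1`: by induction over `Relation.ReflTransGen` every `y` reached from `b` is `v k` with `k ≤ i`: a step from `v k` to `y = v l`
with `3 ≤ M (v k) (v l)` has `|k - l| ≤ 1`, and `l = i + 1` only for `k = i`, that is the forbidden edge. Then `c = v (i + 1) = v k`, contradiction to `h.inj`. Case `i = j + 1`: the same with `k ≥ i`.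
-/

set_option autoImplicit false

namespace Pool.Agent.H54.CT

open Pool.Agent.H54.BS

variable {B : Type} {M : CoxeterMatrix B} {n : ℕ} {v : ℕ → B}

/-- the values of `M` -/
private theorem fr_val (h : Pd M n v) {i j : ℕ} (hi : i ≤ n) (hj : j ≤ n) :
    (M (v i) (v j) = 1 ∧ i = j) ∨ ((M (v i) (v j) = 3 ∨ M (v i) (v j) = 4) ∧ (j = i + 1 ∨ i = j + 1)) ∨
      (M (v i) (v j) = 2 ∧ i ≠ j ∧ j ≠ i + 1 ∧ i ≠ j + 1) := by
  rcases lt_trichotomy i j with h1 | h1 | h1
  · have h2 := h.lab i j h1 hj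
    by_cases h3 : j = i + 1
    · rw [if_pos h3] at h2
      refine Or.inr (Or.inl ⟨?_, Or.inl h3⟩)
      rw [h2]
      split_ifs
      · exact Or.inr rfl
      · exact Or.inl rfl
    · rw [if_neg h3] at h2
      exact Or.inr (Or.inr ⟨h2, by omega, h3, by omega⟩)
  · subst h1
    exact Or.inl ⟨M.diagonal _, rfl⟩
  · have h2 := h.lab j i h1 hi
    rw [M.symmetric] at h2
    by_cases h3 : i = j + 1
    · rw [if_pos h3] at h2
      refine Or.inr (Or.inl ⟨?_, Or.inr h3⟩)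
      rw [h2]
      split_ifs
      · exact Or.inr rfl
      · exact Or.inl rfl
    · rw [if_neg h3] at h2
      exact Or.inr (Or.inr ⟨h2, by omega, by omega, h3⟩)

private theorem fr_one (h : Pd M n v) {i : ℕ} (hi : i + 1 ≤ n) {y : B}
    (hp : Relation.ReflTransGen (fun x y => 3 ≤ M x y ∧ ¬ (x = v i ∧ y = v (i + 1)) ∧
      ¬ (x = v (i + 1) ∧ y = v i)) (v i) y) : ∃ k ≤ i, y = v k := by
  induction hp with
  | refl => exact ⟨i, le_rfl, rfl⟩
  | @tail y z _ h2 ih =>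
    obtain ⟨k, hk, rfl⟩ := ih
    obtain ⟨l, hl, rfl⟩ := h.surj z
    obtain ⟨h3, h4, -⟩ := h2
    by_cases hkl : l ≤ i
    · exact ⟨l, hkl, rfl⟩
    · exfalso
      rcases fr_val h (show k ≤ n by omega) hl with h5 | h5 | h5
      · omega
      · have h6 : k = i := by omega
        have h7 : l = i + 1 := by omega
        subst h6
        subst h7
        exact h4 ⟨rfl, rfl⟩
      · omega

private theorem fr_two (h : Pd M n v) {i : ℕ} (hi : i + 1 ≤ n) {y : B}
    (hp : Relation.ReflTransGen (fun x y => 3 ≤ M x y ∧ ¬ (x = v (i + 1) ∧ y = v i) ∧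
      ¬ (x = v i ∧ y = v (i + 1))) (v (i + 1)) y) : ∃ k ≤ n, i + 1 ≤ k ∧ y = v k := by
  induction hp with
  | refl => exact ⟨i + 1, hi, le_rfl, rfl⟩
  | @tail y z _ h2 ih =>
    obtain ⟨k, hk, hk2, rfl⟩ := ih
    obtain ⟨l, hl, rfl⟩ := h.surj z
    obtain ⟨h3, h4, -⟩ := h2
    by_cases hkl : i + 1 ≤ l
    · exact ⟨l, hl, hkl, rfl⟩
    · exfalso
      rcases fr_val h hk hl with h5 | h5 | h5
      · omega
      · have h6 : k = i + 1 := by omega
        have h7 : l = i := by omega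
        subst h6
        subst h7
        exact h4 ⟨rfl, rfl⟩
      · omega

/-- the edges -/
theorem edge_pd (h : Pd M n v) {b c : B} (hbc : 3 ≤ M b c) : ∃ i < n, (b = v i ∧ c = v (i + 1)) ∨ (c = v i ∧ b = v (i + 1)) := by
  obtain ⟨i, hi, rfl⟩ := h.surj b
  obtain ⟨j, hj, rfl⟩ := h.surj c
  rcases fr_val h hi hj with h5 | ⟨-, h5 | h5⟩ | h5
  · omega
  · subst h5
    exact ⟨i, by omega, Or.inl ⟨rfl, rfl⟩⟩
  · subst h5
    exact ⟨j, by omega, Or.inr ⟨rfl, rfl⟩⟩
  · omega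

theorem forest_pd (h : Pd M n v) : Forest M := by
  intro b c hbc hp
  obtain ⟨i, hi, ⟨rfl, rfl⟩ | ⟨rfl, rfl⟩⟩ := edge_pd h hbc
  · obtain ⟨k, hk, hk2⟩ := fr_one h (by omega) hp
    have := h.inj _ (show i + 1 ≤ n by omega) _ (show k ≤ n by omega) hk2
    omega
  · obtain ⟨k, hk, hk1, hk2⟩ := fr_two h (by omega) hp
    have := h.inj _ (show i ≤ n by omega) _ hk hk2
    omega

theorem lab_pd (h : Pd M n v) (b c : B) : M b c ≠ 0 ∧ M b c ≤ 4 := by
  obtain ⟨i, hi, rfl⟩ := h.surj b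
  obtain ⟨j, hj, rfl⟩ := h.surj c
  rcases fr_val h hi hj with h5 | h5 | h5 <;> omega

end Pool.Agent.H54.CT
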