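import Pool.Agent.H54.CT.Cd

/-!
# [H54 CT IP] The path as a quotient of the doubled path (40 min)

`pi z = v z.1.natAbs`, `sg z = -z`. Fixed: only `z = 0`. `surj` from `h.surj` (`z = i`). `fib`: `h.inj`. `sym`: `|-z + w| = |z - w|`, `|-z| = |z|`. `own`: `|2 z| ≠ 1`: label `2`. `lab z w`, `i = z.natAbs ≠ j = w.natAbs`, `M (v i) (v j)` from `h.lab`
(`M.symmetric` if `j < i`): `i + 1 < j` (or `j + 1 < i`): both labels `2` (`|z - w|` is `j - i` or `i + j`, not `1`). `j = i + 1`, `i > 0`: second case (both not fixed, equal labels): same sign: `|z - w| = 1`, the labels are equal (`4` iff `j = n`), and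
`M' z (-w) = 2` (`|z + w| = 2 i + 1`); different sign: the other way. `i = 0`, `j = 1 < n` (`h.two`): last case: `M = 4`, `M' z w = 3` (`|w| = 1 ≠ n`, `|z| = 0 ≠ n`), `z` fixed and `w` not. Symmetric for `j < i`.
-/

set_option autoImplicit false

namespace Pool.Agent.H54.CT

open Pool.H8.CDW

variable {B : Type} {M : CoxeterMatrix B} {n : ℕ} {v : ℕ → B}

/-- the labels of the path, symmetric form -/
private theorem mv (h : Pd M n v) (i j : ℕ) (hi : i ≤ n) (hj : j ≤ n) (hij : i ≠ j) :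
    M (v i) (v j) = if j = i + 1 ∨ i = j + 1 then (if i = 0 ∨ j = 0 ∨ i = n ∨ j = n then 4 else 3) else 2 := by
  have h2 := h.two
  rcases Nat.lt_or_gt_of_ne hij with h1 | h1
  · rw [h.lab i j h1 hj]
    by_cases h3 : j = i + 1
    · rw [if_pos h3, if_pos (Or.inl h3)]
      have h4 : (i = 0 ∨ j = n) ↔ (i = 0 ∨ j = 0 ∨ i = n ∨ j = n) := by omega
      simp only [h4]
    · rw [if_neg h3, if_neg (by omega)]
  · rw [M.symmetric, h.lab j i h1 hi]
    by_cases h3 : i = j + 1
    · rw [if_pos h3, if_pos (Or.inr h3)]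
      have h4 : (j = 0 ∨ i = n) ↔ (i = 0 ∨ j = 0 ∨ i = n ∨ j = n) := by omega
      simp only [h4]
    · rw [if_neg h3, if_neg (by omega)]

private theorem pv {z w : Ln n} (h : z ≠ w) :
    Pl n z w = if (z.1 - w.1 = 1 ∨ z.1 - w.1 = -1) then (if (z.1 = n ∨ z.1 = -n ∨ w.1 = n ∨ w.1 = -n) then 4 else 3) else 2 := by
  rw [pl_apply h]
  have h1 : |z.1 - w.1| = 1 ↔ (z.1 - w.1 = 1 ∨ z.1 - w.1 = -1) := by
    rw [abs_eq (by norm_num)]
  have h2 : (|z.1| = n ∨ |w.1| = n) ↔ (z.1 = n ∨ z.1 = -n ∨ w.1 = n ∨ w.1 = -n) := by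
    rw [abs_eq (by omega), abs_eq (by omega), or_assoc]
  simp only [h1, h2]

private def sgp (n : ℕ) (z : Ln n) : Ln n := ⟨-z.1, by have := z.2; omega⟩

private theorem sgp_val (z : Ln n) : (sgp n z).1 = -z.1 := rfl

private theorem sgp_fix (z : Ln n) : sgp n z = z ↔ z.1 = 0 := by
  rw [Subtype.ext_iff, sgp_val]
  omega

theorem ivP (h : Pd M n v) : ∃ I : Iv M (Pl n), (∀ z, I.pi z = v z.1.natAbs) ∧ ∀ z, (I.sg z).1 = -z.1 := by
  have hn := h.two
  have hfib : ∀ s t : Ln n, v s.1.natAbs = v t.1.natAbs ↔ t = s ∨ t = sgp n s := by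
    intro s t
    have hs := s.2
    have ht := t.2
    have h1 : v s.1.natAbs = v t.1.natAbs ↔ s.1.natAbs = t.1.natAbs :=
      ⟨fun e => h.inj _ (by omega) _ (by omega) e, fun e => by rw [e]⟩
    rw [h1, Subtype.ext_iff, Subtype.ext_iff, sgp_val]
    omega
  refine ⟨⟨fun z => v z.1.natAbs, sgp n, ?_, ?_, hfib, ?_, ?_, ?_⟩, fun z => rfl, fun z => sgp_val z⟩
  · intro b
    obtain ⟨i, hi, rfl⟩ := h.surj b
    exact ⟨⟨(i : ℤ), by omega⟩, rfl⟩
  · intro s
    rw [Subtype.ext_iff, sgp_val, sgp_val, neg_neg]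
  · intro s t
    by_cases he : s = t
    · rw [he, (Pl n).diagonal, (Pl n).diagonal]
    · have he1 : s.1 ≠ t.1 := fun e => he (Subtype.ext e)
      have hv1 := sgp_val s
      have hv2 := sgp_val t
      have he2 : sgp n s ≠ sgp n t := by
        intro e
        rw [Subtype.ext_iff, hv1, hv2] at e
        omega
      rw [pv he, pv he2]
      have h3 : ((sgp n s).1 - (sgp n t).1 = 1 ∨ (sgp n s).1 - (sgp n t).1 = -1) ↔ (s.1 - t.1 = 1 ∨ s.1 - t.1 = -1) := by
        rw [hv1, hv2]
        omega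
      have h4 : ((sgp n s).1 = n ∨ (sgp n s).1 = -n ∨ (sgp n t).1 = n ∨ (sgp n t).1 = -n) ↔
          (s.1 = n ∨ s.1 = -n ∨ t.1 = n ∨ t.1 = -n) := by
        rw [hv1, hv2]
        omega
      simp only [h3, h4]
  · intro s hs
    have hf := fun e => hs ((sgp_fix s).2 e)
    rw [pv (fun e => hs e.symm), if_neg]
    rw [sgp_val]
    omega
  · intro s t hst
    have hs := s.2
    have ht := t.2
    have hij : s.1.natAbs ≠ t.1.natAbs := fun e => hst (congrArg v e)
    have hM := mv h s.1.natAbs t.1.natAbs (by omega) (by omega) hij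
    have hne : s ≠ t := fun e => hij (by rw [e])
    have hA := pv hne
    by_cases h1 : t.1.natAbs = s.1.natAbs + 1 ∨ s.1.natAbs = t.1.natAbs + 1
    · rw [if_pos h1] at hM
      by_cases h2 : s.1 = 0 ∨ t.1 = 0
      · rw [if_pos (by omega)] at hM
        refine Or.inr (Or.inr (Or.inr ⟨hM, ?_, ?_⟩))
        · rw [hA, if_pos (by omega), if_neg (by omega)]
        · rw [Ne, Ne, sgp_fix, sgp_fix]
          omega
      · have hv := sgp_val t
        have hne2 : s ≠ sgp n t := by
          intro e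
          rw [Subtype.ext_iff, hv] at e
          omega
        have hA2 := pv hne2
        rw [hv] at hA2
        refine Or.inr (Or.inl ⟨?_, ?_, ?_⟩)
        · rw [Ne, sgp_fix]
          omega
        · rw [Ne, sgp_fix]
          omega
        · by_cases h4 : s.1 - t.1 = 1 ∨ s.1 - t.1 = -1
          · left
            rw [if_pos h4] at hA
            rw [if_neg (by omega)] at hA2
            rw [hA, hA2, hM]
            refine ⟨?_, rfl⟩
            have h5 : (s.1.natAbs = 0 ∨ t.1.natAbs = 0 ∨ s.1.natAbs = n ∨ t.1.natAbs = n) ↔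
                (s.1 = n ∨ s.1 = -n ∨ t.1 = n ∨ t.1 = -n) := by omega
            simp only [h5]
          · right
            rw [if_neg h4] at hA
            rw [if_pos (by omega)] at hA2
            rw [hA, hA2, hM]
            refine ⟨rfl, ?_⟩
            have h5 : (s.1.natAbs = 0 ∨ t.1.natAbs = 0 ∨ s.1.natAbs = n ∨ t.1.natAbs = n) ↔
                (s.1 = n ∨ s.1 = -n ∨ -t.1 = n ∨ -t.1 = -n) := by omega
            simp only [h5]
    · rw [if_neg h1] at hM
      left
      refine ⟨hM, ?_⟩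
      rw [hA, if_neg]
      omega

end Pool.Agent.H54.CT
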