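import Pool.Agent.H54.CT.Fm
import Pool.Agent.H54.CT.Ip
import Pool.Agent.H54.CT.Cc
import Pool.Agent.H54.CT.Ds
import Pool.Agent.H54.CT.Fr
import Pool.Agent.H54.AF.TreeF

/-!
# [H54 CT GP] POLY for the path `4, 3, …, 3, 4` from POLY for circuits
-/

set_option autoImplicit false

namespace Pool.Agent.H54.CT

open CoxeterSystem Pool.H8.CDW Pool.Agent.H52.PAG Pool.Agent.H75.INF Pool.Agent.H54.TF Pool.Agent.H2.UF Pool.Agent.H54.AF
  Pool.Agent.H54.BS Pool.Agent.H52.VK Pool.Agent.H34.TG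

variable {B : Type} {M : CoxeterMatrix B} {n : ℕ} {v : ℕ → B}

/-- girth of the edges of the path -/
theorem gs_pd (hc : PCir) (h : Pd M n v) {i : ℕ} (hi : i < n) : GS M Set.univ (v i) (v (i + 1)) := by
  obtain ⟨I, hI, -⟩ := ivC h
  obtain ⟨F, hF⟩ := exists_fold I
  obtain ⟨s, hs⟩ : ∃ s : Cn n, s.1 = i := ⟨⟨i, by omega, by omega⟩, rfl⟩
  obtain ⟨t, ht⟩ : ∃ t : Cn n, t.1 = i + 1 := ⟨⟨i + 1, by omega, by omega⟩, rfl⟩
  have hs' : I.pi s = v i := by rw [hI, hs]; rfl
  have ht' : I.pi t = v (i + 1) := by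
    rw [hI, ht]
    congr 1
  have hst : Ac n s t = 3 := by
    rw [ac_apply (fun e => by rw [e] at hs; omega), if_pos]
    left
    rw [hs, ht]
    rw [abs_sub_comm]
    simp
  refine gs_of hF hs' ht' (gs_ac hc h.two hst) ?_ ?_
  · intro x hx hx'
    have h1 := dsc I hF (r := v i) (J := {b | ∃ j, i < j ∧ j ≤ n ∧ v j = b}) ?_ ?_ ?_ hx (t := t) ?_ hx'
    · rwa [ht'] at h1
    · rintro _ ⟨j, hj, hjn, rfl⟩ b hb hbi
      obtain ⟨k, hk, rfl⟩ := h.surj b
      have hki : k ≤ i := by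
        by_contra hcon
        exact hb ⟨k, by omega, hk, rfl⟩
      have hki' : k ≠ i := fun e => hbi (by rw [e])
      rw [M.symmetric, h.lab k j (by omega) hjn, if_neg (by omega)]
    · rintro ⟨j, hj, hjn, e⟩
      exact absurd (h.inj j hjn i hi.le e) (by omega)
    · rw [pre_up hI h]
      exact fin_up h.two hi
    · rw [ht']
      exact ⟨i + 1, by omega, hi, rfl⟩
  · intro x hx hx'
    have h1 := dsc I hF (r := v (i + 1)) (J := {b | ∃ j, j ≤ i ∧ j ≤ n ∧ v j = b}) ?_ ?_ ?_ hx (t := s) ?_ hx'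
    · rwa [hs'] at h1
    · rintro _ ⟨j, hj, hjn, rfl⟩ b hb hbi
      obtain ⟨k, hk, rfl⟩ := h.surj b
      have hki : i < k := by
        by_contra hcon
        exact hb ⟨k, by omega, hk, rfl⟩
      have hki' : k ≠ i + 1 := fun e => hbi (by rw [e])
      rw [h.lab j k (by omega) hk, if_neg (by omega)]
    · rintro ⟨j, hj, hjn, e⟩
      exact absurd (h.inj j hjn (i + 1) hi e) (by omega)
    · rw [pre_lo hI h]
      exact fin_lo hi
    · rw [hs']
      exact ⟨i, le_rfl, hi.le, rfl⟩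

/-- girth of the edges with label `4` -/
theorem six_pd (hc : PCir) (h : Pd M n v) : Gir (ap M ({v 1}ᶜ : Set B)) (ap M ({v 0}ᶜ : Set B)) 4 := by
  have h2 := h.two
  obtain ⟨I, hI, -⟩ := ivP h
  obtain ⟨F, hF⟩ := exists_fold I
  have hp := pd_pl (n := n) (by omega)
  obtain ⟨b1, hb1⟩ : ∃ b : Ln n, b.1 = 1 := ⟨⟨1, by omega, by omega⟩, rfl⟩
  obtain ⟨b2, hb2⟩ : ∃ b : Ln n, b.1 = -1 := ⟨⟨-1, by omega, by omega⟩, rfl⟩
  obtain ⟨c1, hc1⟩ : ∃ b : Ln n, b.1 = 0 := ⟨⟨0, by omega, by omega⟩, rfl⟩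
  have eb1 : vL n (n + 1) = b1 := Subtype.ext (by
    show ((min (n + 1) (2 * n) : ℕ) : ℤ) - (n : ℤ) = b1.1
    rw [hb1]
    omega)
  have eb2 : vL n (n - 1) = b2 := Subtype.ext (by
    show ((min (n - 1) (2 * n) : ℕ) : ℤ) - (n : ℤ) = b2.1
    rw [hb2]
    omega)
  have ec1 : vL n n = c1 := Subtype.ext (by
    show ((min n (2 * n) : ℕ) : ℤ) - (n : ℤ) = c1.1
    rw [hc1]
    omega)
  have hM' : ∀ i j : Ln n, Pl n i j ≠ 0 := fun i j => (lab_pd hp i j).1
  have hne : b1 ≠ c1 := fun e => by rw [e, hc1] at hb1; omega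
  have h13 : 3 ≤ Pl n b1 c1 := by
    rw [pl_apply hne, hb1, hc1]
    simp only [sub_zero, abs_one, if_true]
    split_ifs <;> norm_num
  have g1 : GS (Pl n) Set.univ b1 c1 := by
    have h3 := gs_pd hc hp.rev (i := n - 1) (by omega)
    have e1 : vL n (2 * n - (n - 1)) = b1 := by
      rw [← eb1]
      congr 1
      omega
    have e2 : vL n (2 * n - (n - 1 + 1)) = c1 := by
      rw [← ec1]
      congr 1
      omega
    rwa [e1, e2] at h3
  have g2 : GS (Pl n) Set.univ b2 c1 := by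
    have h3 := gs_pd hc hp (i := n - 1) (by omega)
    rwa [eb2, show n - 1 + 1 = n by omega, ec1] at h3
  have p1 : I.pi b1 = v 1 := by rw [hI, hb1]; rfl
  have p2 : I.pi b2 = v 1 := by rw [hI, hb2]; rfl
  have p3 : I.pi c1 = v 0 := by rw [hI, hc1]; rfl
  have hv : v 1 ≠ v 0 := h.ne (by omega) (by omega) (by omega)
  have key : ∀ (b : Ln n), I.pi b = v 1 → ∀ g ∈ ap M ({v 0}ᶜ : Set B), F.fa g ∈ ap (Pl n) ({b}ᶜ : Set (Ln n)) →
      g ∈ ap M ({v 1}ᶜ : Set B) := by
    intro b hb g hg hg'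
    have h1 := dsc I hF (r := v 0) (J := {v 0}ᶜ) ?_ ?_ ?_ hg (t := b) ?_ hg'
    · rwa [hb] at h1
    · intro i _ j hj hj'
      exact absurd hj' fun h3 => hj h3
    · exact fun h3 => h3 rfl
    · have e : (I.pi ⁻¹' {v 0}ᶜ : Set (Ln n)) = {z : Ln n | z.1 ≠ 0} := by
        ext z
        show I.pi z ∈ ({v 0}ᶜ : Set B) ↔ z.1 ≠ 0
        rw [hI, Set.mem_compl_iff, Set.mem_singleton_iff, not_iff_not]
        constructor
        · intro h3
          have := h.inj _ (by have := z.2; omega) _ (by omega) h3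
          omega
        · intro h3
          rw [h3]
          rfl
      rw [show (I.pi ⁻¹' {v 0}ᶜ : Set (Ln n)) = {z : Ln n | z.1 ≠ 0} from ?_]
      · exact fin_pl (by omega)
      · rw [← e]
    · rw [hb]
      exact hv
  refine six_of hF p1 p2 p3 hM' h13 g1 g2 {z | 0 < z.1} (by show 0 < b1.1; omega) (by show ¬ 0 < b2.1; omega)
    (by show ¬ 0 < c1.1; omega) ?_ (fun g hg h3 => key b1 p1 g hg h3) ?_ (fun g hg h3 => key b2 p2 g hg h3)
  · intro i hi j hj hjc
    have hi' : 0 < i.1 := hi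
    have hj' : ¬ 0 < j.1 := hj
    have hj'' : j.1 ≠ 0 := fun e => hjc (Subtype.ext (by rw [e, hc1]))
    rw [pl_apply (fun e => by rw [e] at hi'; omega), if_neg]
    rw [abs_of_pos (by omega)]
    omega
  · intro g hg hg'
    have h1 := dsc I hF (r := v 1) (J := {v 0}) ?_ ?_ ?_ hg (t := c1) ?_ hg'
    · rwa [p3] at h1
    · rintro _ rfl j hj hj'
      obtain ⟨k, hk, rfl⟩ := h.surj j
      have hk0 : k ≠ 0 := fun e => hj (by rw [e]; rfl)
      have hk1 : k ≠ 1 := fun e => hj' (by rw [e])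
      rw [h.lab 0 k (by omega) hk, if_neg (by omega)]
    · exact fun e => hv e
    · have e : (I.pi ⁻¹' {v 0} : Set (Ln n)) = {c1} := by
        ext z
        show I.pi z = v 0 ↔ z = c1
        rw [hI]
        constructor
        · intro h3
          have := h.inj _ (by have := z.2; omega) _ (by omega) h3
          exact Subtype.ext (by rw [hc1]; omega)
        · rintro rfl
          rw [hc1]
          rfl
      refine fin_path _ 1 (fun _ => ⟨c1, p3⟩) (fun b => ⟨0, by omega, ?_⟩) (fun i hi => absurd hi (by omega)) (fun i j hi hj => absurd hj (by omega))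
      apply Subtype.ext
      have h4 : ∀ z ∈ (I.pi ⁻¹' {v 0} : Set (Ln n)), c1 = z := by
        rw [e]
        exact fun z hz => hz.symm
      exact h4 b.1 b.2
    · exact p3

/-- POLY for paths -/
theorem ppth_of (hc : PCir) : PPth := by
  intro B M hP
  obtain ⟨n, v, hn, h⟩ := pd_of_pth hP
  refine polF_tree (fun i j => (lab_pd h i j).1) (fun i j => (lab_pd h i j).2.trans (by norm_num)) (forest_pd h) ?_ ?_
  · intro b c hbc
    obtain ⟨i, hi, ⟨rfl, rfl⟩ | ⟨rfl, rfl⟩⟩ := edge_pd h hbc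
    · exact gs_pd hc h hi
    · have h1 := gir_of_gs (gs_pd hc h hi)
      exact gs_of_gir le_rfl h1.symm
  · intro b c hbc
    have h4 : M b c = 4 := by
      rcases hbc with h1 | h1
      · exact h1
      · have := (lab_pd h b c).2
        omega
    have h5 := six_pd hc h
    have h6 := six_pd hc h.rev
    rw [show n - 0 = n by omega] at h6
    obtain ⟨i, hi, ⟨rfl, rfl⟩ | ⟨rfl, rfl⟩⟩ := edge_pd h (show 3 ≤ M b c by omega)
    · rw [h.lab i (i + 1) (by omega) hi, if_pos rfl] at h4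
      have h7 : i = 0 ∨ i + 1 = n := by
        by_contra hcon
        rw [if_neg hcon] at h4
        omega
      rcases h7 with rfl | rfl
      · exact h5.symm
      · rw [show i + 1 - 1 = i by omega] at h6
        exact h6
    · rw [M.symmetric, h.lab i (i + 1) (by omega) hi, if_pos rfl] at h4
      have h7 : i = 0 ∨ i + 1 = n := by
        by_contra hcon
        rw [if_neg hcon] at h4
        omega
      rcases h7 with rfl | rfl
      · exact h5
      · rw [show i + 1 - 1 = i by omega] at h6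
        exact h6.symm

end Pool.Agent.H54.CT
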