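import Pool.Agent.H2.UF.Six

/-!
# [H54 CT FI] A quotient diagram of a diagram of finite type is of finite type (20 min)

`F.fw : M.Group →* M'.Group` is injective: `F.desc_iff w t : IsRightDescent (F.fw w) t ↔ IsRightDescent w (F.pi t)`; if `w ≠ 1` then `w` has a right descent `i` (`exists_rightDescent_of_ne_one`), `i = F.pi t`, so `F.fw w` has the right
descent `t`, and `F.fw w ≠ 1` (`1` has no descent: `length_one`, `length_simple`). `injective_iff_map_eq_one`, `Finite.of_injective`.
-/

set_option autoImplicit false

namespace Pool.Agent.H54.CT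

open Pool.H8.CDW Pool.Agent.H52.PAG Pool.Agent.H75.INF Pool.Agent.H2.UF

variable {B B' : Type} {M : CoxeterMatrix B} {M' : CoxeterMatrix B'}

theorem fold_finite (F : Fold M M') (hs : Function.Surjective F.pi) (h : Finite M'.Group) : Finite M.Group := by
  have hinj : Function.Injective F.fw := by
    rw [injective_iff_map_eq_one]
    intro w hw
    by_contra hne
    obtain ⟨i, hi⟩ := M.toCoxeterSystem.exists_rightDescent_of_ne_one hne
    obtain ⟨t, rfl⟩ := hs i
    have h1 := (F.desc_iff w t).2 hi
    rw [hw] at h1
    unfold CoxeterSystem.IsRightDescent at h1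
    rw [one_mul, M'.toCoxeterSystem.length_one, M'.toCoxeterSystem.length_simple] at h1
    omega
  exact Finite.of_injective _ hinj

end Pool.Agent.H54.CT
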