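import Pool.Agent.H54.BS.Defs

/-!
# [H54 CT FINA] The Coxeter group of a path with labels `3` is finite (45 min)

`cs = M.toCoxeterSystem`, `s i = cs.simple (p i)`, `G k = Subgroup.closure (s '' {i | i < k})`. Claim: `G k` is finite for `k ≤ m`, induction over `k`. `G 0 = ⊥`. Step: `T i = s i * s (i + 1) * .. * s (k - 1) * s k` for `i ≤ k` (define by a list:
`T i = ((List.range' i (k + 1 - i)).map s).prod`, `T (k + 1) = 1`, `T i = s i * T (i + 1)`). `X = ⋃ i ≤ k + 1, T i * G k`, finite, contains `1`. Closed under left multiplication by `s j`, `j ≤ k`: (`g ∈ G k`)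
`j + 1 < i`: `s j * T i * g = T i * (s j * g)` (`s j` commutes with all `s l`, `l ≥ i`; `j < k`); `j + 1 = i`: `s j * T i = T j`; `j = i`: `s j * T i = T (i + 1)`;
`j > i`: `s j * T i = T i * s (j - 1)`: `s j` commutes with `s i, .., s (j - 2)`, `s j * s (j - 1) * s j = s (j - 1) * s j * s (j - 1)`, and `s (j - 1)` commutes with `s (j + 1), .., s k` (induction over `j - i` from the recursion
`T i = s i * T (i + 1)`: if `j > i + 1` then `s j * s i * T (i + 1) = s i * (s j * T (i + 1)) = s i * T (i + 1) * s (j - 1)`; if `j = i + 1`: `s j * s i * s j * T (j + 1) = s i * s j * s i * T (j + 1) = s i * s j * T (j + 1) * s i`).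
So `G (k + 1) ⊆ X` (`Subgroup.closure_induction_left`; `s j` is its own inverse). `G m = ⊤` by surjectivity of `p` (`cs.subgroup_closure_range_simple`). The braid relation `s a * s b * s a = s b * s a * s b` from
`(s a * s b) ^ 3 = 1` and `s a * s a = 1`; commuting from `(s a * s b) ^ 2 = 1`.
-/

set_option autoImplicit false

namespace Pool.Agent.H54.CT

/-- `s (k + 1 - n) * .. * s k` -/
private def uu {G : Type} [Group G] (s : ℕ → G) (k : ℕ) : ℕ → G
  | 0 => 1
  | n + 1 => s (k - n) * uu s k n

private theorem uu_zero {G : Type} [Group G] (s : ℕ → G) (k : ℕ) : uu s k 0 = 1 := rfl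

private theorem uu_succ {G : Type} [Group G] (s : ℕ → G) (k n : ℕ) :
    uu s k (n + 1) = s (k - n) * uu s k n := rfl

private theorem uu_a {G : Type} [Group G] (s : ℕ → G) (k : ℕ)
    (hc : ∀ i j, i + 1 < j → j ≤ k → s i * s j = s j * s i) (j : ℕ) :
    ∀ n, j + n < k → s j * uu s k n = uu s k n * s j := by
  intro n
  induction n with
  | zero =>
    intro _
    rw [uu_zero, mul_one, one_mul]
  | succ n ih =>
    intro h
    rw [uu_succ, ← mul_assoc, hc j (k - n) (by omega) (by omega), mul_assoc, ih (by omega), mul_assoc]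

private theorem uu_b {G : Type} [Group G] (s : ℕ → G) (k : ℕ)
    (hb : ∀ i, i + 1 ≤ k → s i * s (i + 1) * s i = s (i + 1) * s i * s (i + 1))
    (hc : ∀ i j, i + 1 < j → j ≤ k → s i * s j = s j * s i) (j : ℕ) (hj : j ≤ k) :
    ∀ n, n ≤ k + 1 → k + 1 < j + n → s j * uu s k n = uu s k n * s (j - 1) := by
  intro n
  induction n with
  | zero =>
    intro _ h
    omega
  | succ n ih =>
    intro hn h
    rcases Nat.lt_or_ge (k + 1) (j + n) with h1 | h1
    · rw [uu_succ, ← mul_assoc, ← hc (k - n) j (by omega) hj, mul_assoc, ih (by omega) h1, mul_assoc]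
    · obtain ⟨n', rfl⟩ : ∃ n', n = n' + 1 := ⟨n - 1, by omega⟩
      have e1 : k - (n' + 1) = j - 1 := by omega
      have e2 : k - n' = j := by omega
      have h3 := hb (j - 1) (by omega)
      have e3 : j - 1 + 1 = j := by omega
      rw [e3] at h3
      have h4 := uu_a s k hc (j - 1) n' (by omega)
      rw [uu_succ, uu_succ, e1, e2]
      calc s j * (s (j - 1) * (s j * uu s k n')) = (s j * s (j - 1) * s j) * uu s k n' := by
            simp only [mul_assoc]
        _ = (s (j - 1) * s j * s (j - 1)) * uu s k n' := by rw [h3]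
        _ = s (j - 1) * s j * (s (j - 1) * uu s k n') := by simp only [mul_assoc]
        _ = s (j - 1) * s j * (uu s k n' * s (j - 1)) := by rw [h4]
        _ = s (j - 1) * (s j * uu s k n') * s (j - 1) := by simp only [mul_assoc]

private theorem fin_abs {G : Type} [Group G] (s : ℕ → G) (m : ℕ) (hq : ∀ i, s i * s i = 1)
    (hb : ∀ i, i + 1 < m → s i * s (i + 1) * s i = s (i + 1) * s i * s (i + 1))
    (hc : ∀ i j, i + 1 < j → j < m → s i * s j = s j * s i) :
    ∀ k ≤ m, (Subgroup.closure (s '' {i | i < k}) : Set G).Finite := by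
  intro k
  induction k with
  | zero =>
    intro _
    have h1 : s '' {i | i < 0} = ∅ := by
      rw [Set.image_eq_empty]
      ext i
      simp
    rw [h1, Subgroup.closure_empty, Subgroup.coe_bot]
    exact Set.finite_singleton _
  | succ k ih =>
    intro hk
    have hb' : ∀ i, i + 1 ≤ k → s i * s (i + 1) * s i = s (i + 1) * s i * s (i + 1) :=
      fun i h => hb i (by omega)
    have hc' : ∀ i j, i + 1 < j → j ≤ k → s i * s j = s j * s i := fun i j h h' => hc i j h (by omega)
    have hfin := ih (by omega)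
    obtain ⟨H, hH⟩ : ∃ H : Subgroup G, H = Subgroup.closure (s '' {i | i < k}) := ⟨_, rfl⟩
    rw [← hH] at hfin
    have hsH : ∀ j < k, s j ∈ H := by
      intro j hj
      rw [hH]
      exact Subgroup.subset_closure ⟨j, hj, rfl⟩
    have hX : (Set.image2 (fun (n : ℕ) (g : G) => uu s k n * g) {n | n ≤ k + 1} (H : Set G)).Finite :=
      Set.Finite.image2 _ (Set.finite_le_nat (k + 1)) hfin
    refine hX.subset ?_
    have hstep : ∀ j ≤ k, ∀ x ∈ Set.image2 (fun (n : ℕ) (g : G) => uu s k n * g) {n | n ≤ k + 1} (H : Set G),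
        s j * x ∈ Set.image2 (fun (n : ℕ) (g : G) => uu s k n * g) {n | n ≤ k + 1} (H : Set G) := by
      rintro j hj _ ⟨n, hn, g, hg, rfl⟩
      have hn' : n ≤ k + 1 := hn
      rcases Nat.lt_trichotomy (j + n) k with h | h | h
      · refine ⟨n, hn, s j * g, H.mul_mem (hsH j (by omega)) hg, ?_⟩
        show uu s k n * (s j * g) = s j * (uu s k n * g)
        rw [← mul_assoc, ← mul_assoc, uu_a s k hc' j n h]
      · refine ⟨n + 1, ?_, g, hg, ?_⟩
        · show n + 1 ≤ k + 1
          omega
        · show uu s k (n + 1) * g = s j * (uu s k n * g)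
          have e : k - n = j := by omega
          rw [uu_succ, e, mul_assoc]
      · rcases Nat.lt_or_ge (k + 1) (j + n) with h' | h'
        · refine ⟨n, hn, s (j - 1) * g, H.mul_mem (hsH (j - 1) (by omega)) hg, ?_⟩
          show uu s k n * (s (j - 1) * g) = s j * (uu s k n * g)
          rw [← mul_assoc, ← mul_assoc, uu_b s k hb' hc' j hj n hn' h']
        · obtain ⟨n', rfl⟩ : ∃ n', n = n' + 1 := ⟨n - 1, by omega⟩
          refine ⟨n', ?_, g, hg, ?_⟩
          · show n' ≤ k + 1
            omega
          · show uu s k n' * g = s j * (uu s k (n' + 1) * g)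
            have e : k - n' = j := by omega
            rw [uu_succ, e, mul_assoc, ← mul_assoc (s j) (s j), hq, one_mul]
    intro x hx
    have hx' : x ∈ Subgroup.closure (s '' {i | i < k + 1}) := hx
    clear hx
    induction hx' using Subgroup.closure_induction_left with
    | one =>
      refine ⟨0, Nat.zero_le _, 1, H.one_mem, ?_⟩
      show uu s k 0 * 1 = 1
      rw [uu_zero, mul_one]
    | mul_left x hx y hy ih2 =>
      obtain ⟨j, hj, rfl⟩ := hx
      exact hstep j (Nat.lt_succ_iff.1 hj) y ih2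
    | inv_mul_cancel x hx y hy ih2 =>
      obtain ⟨j, hj, rfl⟩ := hx
      have h1 : (s j)⁻¹ = s j := inv_eq_of_mul_eq_one_right (hq j)
      rw [h1]
      exact hstep j (Nat.lt_succ_iff.1 hj) y ih2

theorem fin_path {B : Type} (M : CoxeterMatrix B) (m : ℕ) (p : ℕ → B) (hs : ∀ b, ∃ i < m, p i = b) (h1 : ∀ i, i + 1 < m → M (p i) (p (i + 1)) = 3)
    (h2 : ∀ i j, i + 1 < j → j < m → M (p i) (p j) = 2) : Finite M.Group := by
  obtain ⟨cs, hcs⟩ : ∃ cs : CoxeterSystem M M.Group, cs = M.toCoxeterSystem := ⟨_, rfl⟩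
  obtain ⟨s, hsdef⟩ : ∃ s : ℕ → M.Group, s = fun i => cs.simple (p i) := ⟨_, rfl⟩
  have hq : ∀ i, s i * s i = 1 := by
    intro i
    rw [hsdef]
    exact cs.simple_mul_simple_self (p i)
  have hinv : ∀ i, (s i)⁻¹ = s i := fun i => inv_eq_of_mul_eq_one_right (hq i)
  have hb : ∀ i, i + 1 < m → s i * s (i + 1) * s i = s (i + 1) * s i * s (i + 1) := by
    intro i hi
    have h3 : (s i * s (i + 1)) ^ 3 = 1 := by
      have h4 := cs.simple_mul_simple_pow (p i) (p (i + 1))
      rw [h1 i hi] at h4
      rw [hsdef]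
      exact h4
    have h5 : (s i * s (i + 1) * s i) * (s (i + 1) * s i * s (i + 1)) = 1 := by
      rw [← h3, pow_succ, pow_succ, pow_succ, pow_zero, one_mul]
      simp only [mul_assoc]
    have h6 := eq_inv_of_mul_eq_one_left h5
    rw [h6, mul_inv_rev, mul_inv_rev, hinv, hinv]
    simp only [mul_assoc]
  have hc : ∀ i j, i + 1 < j → j < m → s i * s j = s j * s i := by
    intro i j hij hj
    have h3 : (s i * s j) ^ 2 = 1 := by
      have h4 := cs.simple_mul_simple_pow (p i) (p j)
      rw [h2 i j hij hj] at h4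
      rw [hsdef]
      exact h4
    have h5 : (s i * s j) * (s i * s j) = 1 := by
      rw [← pow_two]
      exact h3
    have h6 := eq_inv_of_mul_eq_one_left h5
    rw [mul_inv_rev, hinv, hinv] at h6
    exact h6
  have h := fin_abs s m hq hb hc m le_rfl
  have htop : Subgroup.closure (s '' {i | i < m}) = ⊤ := by
    rw [eq_top_iff, ← cs.subgroup_closure_range_simple]
    refine Subgroup.closure_mono ?_
    rintro _ ⟨b, rfl⟩
    obtain ⟨i, hi, rfl⟩ := hs b
    exact ⟨i, hi, by rw [hsdef]⟩
  rw [htop, Subgroup.coe_top] at h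
  exact Set.finite_univ_iff.1 h

end Pool.Agent.H54.CT
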