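import Pool.Agent.H54.CT.Cd
import Pool.Agent.H54.CT.FinA

/-!
# [H54 CT FN] Proper parts of the circuit are of finite type (45 min)

`fin_path` (H54/CT/FinA; may be sorried). `fin_lo`: `m = 2 i + 1`, `p k = k - i` (`k < m`; elsewhere any element): the label of `p k`, `p l` is `3` iff `l = k + 1`, otherwise `2`: `|k - l| ≤ 2 i ≤ 2 n - 2 < 2 n - 1`.
`fin_up`: `m = 2 (n - i) - 1`, `p k = i + 1 + k` for `i + 1 + k ≤ n`, `p k = i + 1 + k - 2 n` otherwise: for `k < l < m`: `p l - p k` is `l - k` or `l - k - 2 n`, `|p l - p k|` is `1` or `2 n - 1` iff `l = k + 1` (`l - k ≤ m - 1 ≤ 2 n - 2`).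
Values: `i < |p k|`: in the second case `p k < 0`, `-p k = 2 n - i - 1 - k > i`. Surjective: `z > 0`: `k = z - i - 1`; `z < 0`: `k = 2 n + z - i - 1`.
-/

set_option autoImplicit false

namespace Pool.Agent.H54.CT

open Pool.H8.CDW

private theorem fn_three {n : ℕ} {z w : Cn n} (h0 : z.1 ≠ w.1) (h : |z.1 - w.1| = 1 ∨ |z.1 - w.1| = 2 * n - 1) :
    Ac n z w = 3 := by
  rw [ac_apply (fun e => h0 (congrArg Subtype.val e)), if_pos h]

private theorem fn_two {n : ℕ} {z w : Cn n} (h0 : z.1 ≠ w.1) (h1 : |z.1 - w.1| ≠ 1) (h2 : |z.1 - w.1| ≠ 2 * n - 1) :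
    Ac n z w = 2 := by
  rw [ac_apply (fun e => h0 (congrArg Subtype.val e)), if_neg (not_or.2 ⟨h1, h2⟩)]

private theorem fn_gen {n : ℕ} (S : Set (Cn n)) (m : ℕ) (q : ℕ → ℤ) (hq : ∀ k < m, -(n : ℤ) < q k ∧ q k ≤ n)
    (hS : ∀ (z : Cn n), z ∈ S ↔ ∃ k < m, q k = z.1) (hm : 0 < m)
    (h1 : ∀ k, k + 1 < m → q k ≠ q (k + 1) ∧ (|q k - q (k + 1)| = 1 ∨ |q k - q (k + 1)| = 2 * n - 1))
    (h2 : ∀ k l, k + 1 < l → l < m → q k ≠ q l ∧ |q k - q l| ≠ 1 ∧ |q k - q l| ≠ 2 * n - 1) :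
    Finite (resM (Ac n) S).Group := by
  have hc : ∀ k, min k (m - 1) < m := fun k => by omega
  have hc' : ∀ k, k < m → min k (m - 1) = k := fun k hk => by omega
  obtain ⟨p, hp⟩ : ∃ p : ℕ → S, ∀ k < m, (p k).1.1 = q k := by
    refine ⟨fun k => ⟨⟨q (min k (m - 1)), hq _ (hc k)⟩, (hS _).2 ⟨min k (m - 1), hc k, rfl⟩⟩, fun k hk => ?_⟩
    show q (min k (m - 1)) = q k
    rw [hc' k hk]
  refine fin_path (resM (Ac n) S) m p ?_ ?_ ?_
  · intro b
    obtain ⟨k, hk, hkb⟩ := (hS b.1).1 b.2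
    refine ⟨k, hk, ?_⟩
    apply Subtype.ext
    apply Subtype.ext
    rw [hp k hk, hkb]
  · intro k hk
    rw [resM_apply]
    have h3 := hp k (by omega)
    have h4 := hp (k + 1) hk
    have h5 := h1 k hk
    rw [← h3, ← h4] at h5
    exact fn_three h5.1 h5.2
  · intro k l hkl hl
    rw [resM_apply]
    have h3 := hp k (by omega)
    have h4 := hp l hl
    have h5 := h2 k l hkl hl
    rw [← h3, ← h4] at h5
    exact fn_two h5.1 h5.2.1 h5.2.2

theorem fin_lo {n i : ℕ} (hi : i < n) : Finite (resM (Ac n) {z : Cn n | z.1.natAbs ≤ i}).Group := by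
  refine fn_gen _ (2 * i + 1) (fun k => (k : ℤ) - i) (fun k hk => ?_) (fun z => ?_) (by omega) (fun k hk => ?_)
    (fun k l hkl hl => ?_)
  · omega
  · rw [Set.mem_ofPred_eq]
    constructor
    · intro h
      refine ⟨(z.1 + i).toNat, ?_, ?_⟩ <;> omega
    · rintro ⟨k, hk, h⟩
      omega
  · push_cast
    refine ⟨by omega, Or.inl ?_⟩
    rw [abs_eq (by norm_num)]
    omega
  · refine ⟨by omega, ?_, ?_⟩
    · rw [Ne, abs_eq (by norm_num)]
      omega
    · rw [Ne, abs_eq (by omega)]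
      omega

theorem fin_up {n i : ℕ} (hn : 2 ≤ n) (hi : i < n) : Finite (resM (Ac n) {z : Cn n | i < z.1.natAbs}).Group := by
  refine fn_gen _ (2 * (n - i) - 1) (fun k => if i + 1 + k ≤ n then (i : ℤ) + 1 + k else (i : ℤ) + 1 + k - 2 * n)
    (fun k hk => ?_) (fun z => ?_) (by omega) (fun k hk => ?_) (fun k l hkl hl => ?_)
  · split_ifs <;> omega
  · rw [Set.mem_ofPred_eq]
    constructor
    · intro h
      have hz := z.2
      rcases lt_or_ge 0 z.1 with h0 | h0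
      · refine ⟨(z.1 - i - 1).toNat, by omega, ?_⟩
        rw [if_pos (by omega)]
        omega
      · refine ⟨(2 * n + z.1 - i - 1).toNat, by omega, ?_⟩
        rw [if_neg (by omega)]
        omega
    · rintro ⟨k, hk, h⟩
      split_ifs at h <;> omega
  · rw [abs_eq (by norm_num), abs_eq (by omega)]
    push_cast
    split_ifs <;> omega
  · rw [Ne, Ne, Ne, abs_eq (by norm_num), abs_eq (by omega)]
    split_ifs <;> omega

end Pool.Agent.H54.CT
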