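import Pool.Agent.H54.CT.Iv

/-!
# [H54 CT FO] The folding of an involution (60 min)

`I : Iv M M'`. Choose `s i` with `I.pi (s i) = i` (`Function.surjInv I.surj`). `cp i = [s i]` if `I.sg (s i) = s i`, otherwise `[s i, I.sg (s i)]`. `lam t = √2` if `I.sg t = t`, otherwise `1`.
`mem`: `t ∈ cp i ↔ I.pi t = i` by `fib`. `nd` clear. `com`: `fib` and `own`. `rel i j`: `i = j`: both sides equal. `i ≠ j`: `lab (s i) (s j)`:
label `2`: `x = (s i)`, `sg (s i)` commute with `s j`, `sg (s j)`: `M' s t = 2`, `M' (sg s) (sg t) = 2` (`sym`), `M' s (sg t) = 2` (`lab s (sg t)`: the label of `M` is the same, `2`), `M' (sg s) t = 2`: `alt x y 2 = x * y`.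
both not fixed: either `M' s t = M (pi s) (pi t)`, `M' s (sg t) = 2` (so `M' (sg s) (sg t) = M' s t`, `M' (sg s) t = 2` by `sym`, `inv`): `alt_mul` (H2/UF/Brd) with `x₁ = ag s`, `x₂ = ag (sg s)`, `y₁ = ag t`, `y₂ = ag (sg t)` and `ag_rel`;
or `M' s t = 2`, `M' s (sg t) = M (pi s) (pi t)`: the same with `y₁ = ag (sg t)`, `y₂ = ag t` (`ag t * ag (sg t) = ag (sg t) * ag t`, `ag_comm`). Both fixed: `ag_rel`.
label `4`: `br4` (H2/UF/Brd) with `x₁ = ag s`, `x₂ = ag (sg s)`, `c = ag t` if `sg t = t` (`M' (sg s) t = M' (sg s) (sg t) = 3`), symmetric otherwise.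
`bal i t` (`I.pi t ≠ i`): `gform M' s e_t = - cos (π / M' s t)` (`c1_gform_single`, used in H2/UF/Mtx, look there for the computation in `exists_fold4`): label `2`: all terms are `0`; both not fixed: exactly one of the two terms is not `0`, it is equal to the right side, `lam = 1` everywhere; both fixed: one term, `lam = √2` on both sides;
label `4`, `t` fixed: two terms `- 1 / 2 * 1` and the right side is `- √2 / 2 * √2 = -1`; label `4`, `t` not fixed: one term `- 1 / 2 * √2 = - √2 / 2 * 1`.
Last claim: `Fold.fa_gen`: `F.fa (gen M i) = inc M' ((F.cp i).map (ag M')).prod`, with `i = I.pi s`: `s = s i` or `s = I.sg (s i)` (`fib`); `inc_ag`; in the second case the two generators commute.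
-/

set_option autoImplicit false

namespace Pool.Agent.H54.CT

open Pool.H8.CDW Pool.Agent.H52.PAG Pool.Agent.H75.INF Pool.Agent.H54.TF Pool.Agent.H2.UF Pool.Agent.H2.SPH

variable {B B' : Type} {M : CoxeterMatrix B} {M' : CoxeterMatrix B'}

private noncomputable def gg (m : ℕ) : ℝ := if m = 0 then -1 else - Real.cos (Real.pi / m)

private theorem gg2 : gg 2 = 0 := by
  unfold gg
  rw [if_neg (by norm_num)]
  push_cast
  rw [Real.cos_pi_div_two, neg_zero]

private theorem gg3 : gg 3 = -(1 / 2) := by
  unfold gg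
  rw [if_neg (by norm_num)]
  push_cast
  rw [Real.cos_pi_div_three]

private theorem gg4 : gg 4 = -(√2 / 2) := by
  unfold gg
  rw [if_neg (by norm_num)]
  push_cast
  rw [Real.cos_pi_div_four]

private theorem gf {B' : Type} (M' : CoxeterMatrix B') (s t : B') :
    gform M' s (Finsupp.single t (1 : ℝ)) = gg (M' s t) := by
  rw [c1_gform_single]
  rfl

private theorem rel3 {B' : Type} {M' : CoxeterMatrix B'} {s t : B'} (h : M' s t = 3) :
    ag M' s * ag M' t * ag M' s = ag M' t * ag M' s * ag M' t := by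
  have h1 := ag_rel (M := M') (i := s) (j := t) (by rw [h]; norm_num)
  rw [h] at h1
  change ag M' s * (ag M' t * (ag M' s * 1)) = ag M' t * (ag M' s * (ag M' t * 1)) at h1
  rw [mul_one, mul_one, ← mul_assoc, ← mul_assoc] at h1
  exact h1

private theorem two (I : Iv M M') (s t : B') (hne : I.pi s ≠ I.pi t) (h : M (I.pi s) (I.pi t) = 2) :
    M' s t = 2 := by
  rcases I.lab s t hne with h1 | h1 | h1 | h1
  · exact h1.2
  · obtain ⟨-, -, h2 | h2⟩ := h1
    · rw [← h2.1]
      exact h
    · exact h2.1
  · rw [← h1.2.2]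
    exact h
  · have h2 := h1.1
    omega

private theorem sgt (I : Iv M M') (s t : B') : M' (I.sg s) t = M' s (I.sg t) := by
  have h1 := I.sym s (I.sg t)
  rwa [I.inv] at h1

/-- the word of the fibre of `s` -/
private noncomputable def wd (I : Iv M M') (s : B') : AM M' :=
  open Classical in if I.sg s = s then ag M' s else ag M' s * ag M' (I.sg s)

private theorem wd_pos (I : Iv M M') {s : B'} (h : I.sg s = s) : wd I s = ag M' s := by
  unfold wd
  rw [if_pos h]

private theorem wd_neg (I : Iv M M') {s : B'} (h : I.sg s ≠ s) : wd I s = ag M' s * ag M' (I.sg s) := by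
  unfold wd
  rw [if_neg h]

private theorem own' (I : Iv M M') {s : B'} (h : I.sg s ≠ s) : Commute (ag M' s) (ag M' (I.sg s)) :=
  ag_comm (I.own s h)

private theorem wd_rel (I : Iv M M') (s t : B') (hne : I.pi s ≠ I.pi t) (h0 : M (I.pi s) (I.pi t) ≠ 0) :
    alt (wd I s) (wd I t) (M (I.pi s) (I.pi t)) = alt (wd I t) (wd I s) (M (I.pi s) (I.pi t)) := by
  rcases I.lab s t hne with h1 | h1 | h1 | h1
  · have h2 := h1.1
    have key : ∀ u v, I.pi u = I.pi s → I.pi v = I.pi t → Commute (ag M' u) (ag M' v) := by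
      intro u v hu hv
      exact ag_comm (two I u v (by rw [hu, hv]; exact hne) (by rw [hu, hv]; exact h2))
    have hs := I.pi_sg s
    have ht := I.pi_sg t
    have hc : Commute (wd I s) (wd I t) := by
      by_cases a : I.sg s = s
      · by_cases b : I.sg t = t
        · rw [wd_pos I a, wd_pos I b]
          exact key _ _ rfl rfl
        · rw [wd_pos I a, wd_neg I b]
          exact (key _ _ rfl rfl).mul_right (key _ _ rfl ht)
      · by_cases b : I.sg t = t
        · rw [wd_neg I a, wd_pos I b]
          exact (key _ _ rfl rfl).mul_left (key _ _ hs rfl)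
        · rw [wd_neg I a, wd_neg I b]
          exact ((key _ _ rfl rfl).mul_right (key _ _ rfl ht)).mul_left
            ((key _ _ hs rfl).mul_right (key _ _ hs ht))
    rw [h2]
    show wd I s * (wd I t * 1) = wd I t * (wd I s * 1)
    rw [mul_one, mul_one]
    exact hc
  · obtain ⟨hs, ht, h3⟩ := h1
    rw [wd_neg I hs, wd_neg I ht]
    have cs := own' I hs
    have ct := own' I ht
    rcases h3 with ⟨h3, h4⟩ | ⟨h3, h4⟩
    · rw [h3] at h0 ⊢
      have h5 : M' (I.sg s) (I.sg t) = M' s t := I.sym s t
      have h6 : M' (I.sg s) t = 2 := by rw [sgt I]; exact h4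
      have c1 : Commute (ag M' s) (ag M' (I.sg t)) := ag_comm h4
      have c2 : Commute (ag M' t) (ag M' (I.sg s)) := (ag_comm h6).symm
      have r1 := ag_rel (M := M') (i := s) (j := t) h0
      have r2 := ag_rel (M := M') (i := I.sg s) (j := I.sg t) (by rw [h5]; exact h0)
      rw [h5] at r2
      rw [alt_mul cs c1 c2 ct, alt_mul ct c2 c1 cs, r1, r2]
    · rw [h4] at h0 ⊢
      have h5 : M' (I.sg s) t = M' s (I.sg t) := sgt I s t
      have h6 : M' (I.sg s) (I.sg t) = 2 := by rw [I.sym]; exact h3
      have c1 : Commute (ag M' s) (ag M' t) := ag_comm h3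
      have c2 : Commute (ag M' (I.sg t)) (ag M' (I.sg s)) := (ag_comm h6).symm
      have r1 := ag_rel (M := M') (i := s) (j := I.sg t) h0
      have r2 := ag_rel (M := M') (i := I.sg s) (j := t) (by rw [h5]; exact h0)
      rw [h5] at r2
      rw [ct.eq, alt_mul cs c1 c2 ct.symm, alt_mul ct.symm c2 c1 cs, r1, r2]
  · obtain ⟨hs, ht, h3⟩ := h1
    rw [wd_pos I hs, wd_pos I ht, h3]
    exact ag_rel (by rw [← h3]; exact h0)
  · obtain ⟨h2, h3, h4⟩ := h1
    rw [h2]
    rcases h4 with ⟨hs, ht⟩ | ⟨hs, ht⟩
    · have h5 : M' t s = 3 := by rw [M'.symmetric]; exact h3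
      have h6 : M' (I.sg t) s = 3 := by
        rw [sgt I, hs]
        exact h5
      rw [wd_pos I hs, wd_neg I ht]
      exact (br4 (rel3 h5) (rel3 h6) (own' I ht)).symm
    · have h6 : M' (I.sg s) t = 3 := by
        rw [sgt I, ht]
        exact h3
      rw [wd_neg I hs, wd_pos I ht]
      exact br4 (rel3 h3) (rel3 h6) (own' I hs)

/-- the vector -/
private noncomputable def lm (I : Iv M M') (t : B') : ℝ :=
  open Classical in if I.sg t = t then √2 else 1

private theorem lm_pos (I : Iv M M') {s : B'} (h : I.sg s = s) : lm I s = √2 := by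
  unfold lm
  rw [if_pos h]

private theorem lm_neg (I : Iv M M') {s : B'} (h : I.sg s ≠ s) : lm I s = 1 := by
  unfold lm
  rw [if_neg h]

private theorem sg_ne (I : Iv M M') {s : B'} (h : I.sg s ≠ s) : I.sg (I.sg s) ≠ I.sg s := by
  rw [I.inv]
  exact fun e => h e.symm

/-- the fibre -/
private noncomputable def fb (I : Iv M M') (s : B') : List B' :=
  open Classical in if I.sg s = s then [s] else [s, I.sg s]

private theorem fb_pos (I : Iv M M') {s : B'} (h : I.sg s = s) : fb I s = [s] := by
  unfold fb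
  rw [if_pos h]

private theorem fb_neg (I : Iv M M') {s : B'} (h : I.sg s ≠ s) : fb I s = [s, I.sg s] := by
  unfold fb
  rw [if_neg h]

private theorem fb_mem (I : Iv M M') (s t : B') : t ∈ fb I s ↔ I.pi t = I.pi s := by
  have h1 : I.pi t = I.pi s ↔ t = s ∨ t = I.sg s := by
    rw [← I.fib s t]
    exact eq_comm
  rw [h1]
  by_cases h : I.sg s = s
  · rw [fb_pos I h, List.mem_singleton, h, or_self]
  · rw [fb_neg I h]
    simp

private theorem fb_nd (I : Iv M M') (s : B') : (fb I s).Nodup := by
  by_cases h : I.sg s = s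
  · rw [fb_pos I h]
    simp
  · rw [fb_neg I h]
    simp only [List.nodup_cons, List.mem_singleton, List.not_mem_nil, not_false_eq_true, List.nodup_nil,
      and_self, and_true]
    exact fun e => h e.symm

private theorem fb_prod (I : Iv M M') (s : B') : ((fb I s).map (ag M')).prod = wd I s := by
  by_cases h : I.sg s = s
  · rw [fb_pos I h, wd_pos I h]
    simp
  · rw [fb_neg I h, wd_neg I h]
    simp

private theorem fb_bal (I : Iv M M') (s t : B') (hne : I.pi s ≠ I.pi t) :
    ((fb I s).map fun u => gform M' u (Finsupp.single t (1 : ℝ)) * lm I u).sum =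
      gform M (I.pi s) (Finsupp.single (I.pi t) (1 : ℝ)) * lm I t := by
  have hs2 : √2 * √2 = 2 := Real.mul_self_sqrt (by norm_num)
  have s1 : I.sg s = s → ((fb I s).map fun u => gform M' u (Finsupp.single t (1 : ℝ)) * lm I u).sum =
      gg (M' s t) * √2 := by
    intro h
    rw [fb_pos I h]
    simp only [List.map_cons, List.map_nil, List.sum_cons, List.sum_nil, add_zero]
    rw [gf, lm_pos I h]
  have s2 : I.sg s ≠ s → ((fb I s).map fun u => gform M' u (Finsupp.single t (1 : ℝ)) * lm I u).sum =
      gg (M' s t) + gg (M' (I.sg s) t) := by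
    intro h
    rw [fb_neg I h]
    simp only [List.map_cons, List.map_nil, List.sum_cons, List.sum_nil, add_zero]
    rw [gf, gf, lm_neg I h, lm_neg I (sg_ne I h), mul_one, mul_one]
  rw [gf]
  rcases I.lab s t hne with h1 | h1 | h1 | h1
  · have h2 := h1.1
    have h3 : M' (I.sg s) t = 2 := two I _ t (by rw [I.pi_sg]; exact hne) (by rw [I.pi_sg]; exact h2)
    rw [h2, gg2, zero_mul]
    by_cases h : I.sg s = s
    · rw [s1 h, h1.2, gg2, zero_mul]
    · rw [s2 h, h1.2, h3, gg2, add_zero]
  · obtain ⟨hs, ht, h3⟩ := h1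
    rw [s2 hs, lm_neg I ht, mul_one, sgt I]
    rcases h3 with ⟨h3, h4⟩ | ⟨h3, h4⟩
    · rw [h3, h4, gg2, add_zero]
    · rw [h3, ← h4, gg2, zero_add]
  · obtain ⟨hs, ht, h3⟩ := h1
    rw [s1 hs, lm_pos I ht, h3]
  · obtain ⟨h2, h3, h4⟩ := h1
    rcases h4 with ⟨hs, ht⟩ | ⟨hs, ht⟩
    · rw [s1 hs, h2, h3, lm_neg I ht, gg3, gg4]
      ring
    · rw [s2 hs, h2, lm_pos I ht, sgt I, ht, h3, gg3, gg4]
      linarith

open Classical in
theorem exists_fold (I : Iv M M') : ∃ F : Fold M M', F.pi = I.pi ∧
    ∀ s, F.fa (gen M (I.pi s)) = if I.sg s = s then gen M' s else gen M' s * gen M' (I.sg s) := by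
  have hsec : ∀ i, I.pi (Function.surjInv I.surj i) = i := Function.surjInv_eq I.surj
  obtain ⟨F, hF1, hF2⟩ : ∃ F : Fold M M', F.pi = I.pi ∧ ∀ i, F.cp i = fb I (Function.surjInv I.surj i) := by
    refine ⟨{ pi := I.pi
              cp := fun i => fb I (Function.surjInv I.surj i)
              lam := lm I
              mem := ?_
              nd := fun i => fb_nd I _
              com := ?_
              pos := ?_
              rel := ?_
              bal := ?_ }, rfl, fun _ => rfl⟩
    · intro i t
      rw [fb_mem, hsec]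
    · intro s t hst h
      have h1 := (I.fib s t).1 h
      rcases h1 with h1 | h1
      · exact absurd h1.symm hst
      · rw [h1] at hst ⊢
        exact I.own s fun e => hst e.symm
    · intro t
      by_cases h : I.sg t = t
      · rw [lm_pos I h]
        positivity
      · rw [lm_neg I h]
        exact one_pos
    · intro i j h0
      rw [fb_prod, fb_prod]
      by_cases hij : i = j
      · rw [hij]
      · have h1 := wd_rel I (Function.surjInv I.surj i) (Function.surjInv I.surj j)
          (by rw [hsec, hsec]; exact hij) (by rw [hsec, hsec]; exact h0)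
        rw [hsec, hsec] at h1
        exact h1
    · intro i t hne
      have h1 := fb_bal I (Function.surjInv I.surj i) t (by rw [hsec]; exact fun e => hne e.symm)
      rw [hsec] at h1
      exact h1
  refine ⟨F, hF1, ?_⟩
  intro s
  rw [Fold.fa_gen, hF2, fb_prod]
  have main : wd I (Function.surjInv I.surj (I.pi s)) = wd I s := by
    have h1 := (I.fib (Function.surjInv I.surj (I.pi s)) s).1 (by rw [hsec])
    generalize Function.surjInv I.surj (I.pi s) = u at h1
    rcases h1 with h1 | h1
    · rw [h1]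
    · by_cases h : I.sg u = u
      · rw [h1, h]
      · have h2 : I.sg s = u := by rw [h1, I.inv]
        have h3 : I.sg s ≠ s := by
          rw [h1, I.inv]
          exact fun e => h e.symm
        rw [wd_neg I h, wd_neg I h3, h2, ← h1]
        rw [← h2]
        exact (own' I h3).symm.eq
  rw [main]
  by_cases h : I.sg s = s
  · rw [wd_pos I h, if_pos h, Pool.Agent.H2.SPH.inc_ag]
  · rw [wd_neg I h, if_neg h, map_mul, Pool.Agent.H2.SPH.inc_ag, Pool.Agent.H2.SPH.inc_ag]

end Pool.Agent.H54.CT
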