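import Pool.Agent.H54.CT.Cd

/-!
# [H54 CT PP] The doubled path is a path (25 min)

`u i = min i (2 n) - n`. `inj`, `surj` clear. `lab`: `i < j ≤ 2 n`: `pl_apply` (`u i ≠ u j`), `|u i - u j| = j - i`; for `j = i + 1`: `|u i| = n` or `|u j| = n` iff `i = 0` or `j = 2 n` (`n ≥ 1`). The set of the other values: `simp`, `split_ifs`, `omega`.
-/

set_option autoImplicit false

namespace Pool.Agent.H54.CT

/-- the nodes of the doubled path -/
def vL (n : ℕ) (i : ℕ) : Ln n := ⟨(min i (2 * n) : ℕ) - (n : ℤ), by omega, by omega⟩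

theorem pd_pl {n : ℕ} (hn : 1 ≤ n) : Pd (Pl n) (2 * n) (vL n) := by
  have hv : ∀ i, i ≤ 2 * n → (vL n i).1 = (i : ℤ) - n := by
    intro i hi
    show ((min i (2 * n) : ℕ) : ℤ) - (n : ℤ) = _
    rw [min_eq_left hi]
  refine ⟨by omega, fun i hi j hj e => ?_, fun b => ?_, fun i j hij hj => ?_⟩
  · have h1 := congrArg Subtype.val e
    rw [hv i hi, hv j hj] at h1
    omega
  · have hb := b.2
    refine ⟨(b.1 + n).toNat, by omega, ?_⟩
    apply Subtype.ext
    rw [hv _ (by omega), Int.toNat_of_nonneg (by omega)]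
    ring
  · have hne : vL n i ≠ vL n j := by
      intro e
      have h1 := congrArg Subtype.val e
      rw [hv i (by omega), hv j hj] at h1
      omega
    rw [pl_apply hne, hv i (by omega), hv j hj]
    have e1 : (|(i : ℤ) - n - (j - n)| = 1) ↔ j = i + 1 := by
      rw [abs_eq (by norm_num)]
      omega
    by_cases h1 : j = i + 1
    · rw [if_pos (e1.2 h1), if_pos h1]
      have e2 : (|(i : ℤ) - n| = n ∨ |(j : ℤ) - n| = n) ↔ (i = 0 ∨ j = 2 * n) := by
        rw [abs_eq (by omega), abs_eq (by omega)]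
        omega
      simp only [e2]
    · rw [if_neg (fun h => h1 (e1.1 h)), if_neg h1]

end Pool.Agent.H54.CT
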