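import Pool.Agent.H54.CT.Ic
import Pool.Agent.H54.CT.Pp
import Pool.Agent.H54.CT.Fn
import Pool.Agent.H54.CT.Fo
import Pool.Agent.H54.CT.Fi
import Pool.Agent.H8.CDW.D3

/-!
# [H54 CT FM] Finiteness in the path and the doubled path
-/

set_option autoImplicit false

namespace Pool.Agent.H54.CT

open CoxeterSystem Pool.H8.CDW Pool.Agent.H52.PAG Pool.Agent.H75.INF Pool.Agent.H54.TF Pool.Agent.H2.UF

variable {B : Type} {M : CoxeterMatrix B} {n : ℕ} {v : ℕ → B}

theorem finr_iff (hM : ∀ i j, M i j ≠ 0) (T : Set B) :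
    Finite (resM M T).Group ↔ Finite (par M.toCoxeterSystem T) := by
  have h := card_res M.toCoxeterSystem hM T
  constructor
  · intro h1
    apply Nat.finite_of_card_ne_zero
    rw [← h]
    exact Nat.card_ne_zero.2 ⟨⟨1⟩, h1⟩
  · intro h1
    apply Nat.finite_of_card_ne_zero
    rw [h]
    exact Nat.card_ne_zero.2 ⟨⟨1⟩, h1⟩

theorem finr_union (hM : ∀ i j, M i j ≠ 0) {J J' : Set B} (h2 : ∀ i ∈ J, ∀ j ∈ J', M i j = 2) (h : Finite (resM M J).Group)
    (h' : Finite (resM M J').Group) : Finite (resM M (J ∪ J')).Group := by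
  rw [finr_iff hM] at h h' ⊢
  have hc : ∀ x ∈ par M.toCoxeterSystem J, ∀ y ∈ par M.toCoxeterSystem J', Commute x y := by
    intro x hx y hy
    refine Subgroup.closure_induction (p := fun x _ => Commute x y) ?_ ?_ ?_ ?_ hx
    · rintro _ ⟨i, hi, rfl⟩
      refine Subgroup.closure_induction (p := fun y _ => Commute (M.toCoxeterSystem.simple i) y) ?_ ?_ ?_ ?_ hy
      · rintro _ ⟨j, hj, rfl⟩
        have h3 := M.toCoxeterSystem.simple_mul_simple_pow i j
        rw [h2 i hi j hj, pow_two] at h3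
        show _ = _
        have h4 := eq_inv_of_mul_eq_one_left h3
        rw [mul_inv_rev, inv_simple, inv_simple] at h4
        exact h4
      · exact Commute.one_right _
      · exact fun a b _ _ ha hb => ha.mul_right hb
      · exact fun a _ ha => ha.inv_right
    · exact Commute.one_left _
    · exact fun a b _ _ ha hb => ha.mul_left hb
    · exact fun a _ ha => ha.inv_left
  have e : par M.toCoxeterSystem (J ∪ J') = (MonoidHom.noncommCoprod (par M.toCoxeterSystem J).subtype
      (par M.toCoxeterSystem J').subtype fun x y => hc x x.2 y y.2).range := by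
    rw [MonoidHom.noncommCoprod_range, Subgroup.range_subtype, Subgroup.range_subtype]
    unfold Pool.H8.CDW.par
    rw [Set.image_union, Subgroup.closure_union]
  rw [e]
  exact Finite.of_surjective _ (MonoidHom.rangeRestrict_surjective _)

/-- a part of a quotient diagram of finite type above -/
theorem iv_finite {B' : Type} {M' : CoxeterMatrix B'} (I : Iv M M') (J : Set B) (h : Finite (resM M' (I.pi ⁻¹' J)).Group) :
    Finite (resM M J).Group := by
  obtain ⟨F, hF, -⟩ := exists_fold (I.res J)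
  exact fold_finite F (by rw [hF]; exact (I.res J).surj) h

theorem pre_up {I : Iv M (Ac n)} (hI : ∀ z, I.pi z = v z.1.natAbs) (h : Pd M n v) (i : ℕ) :
    I.pi ⁻¹' {b | ∃ j, i < j ∧ j ≤ n ∧ v j = b} = {z : Cn n | i < z.1.natAbs} := by
  ext z
  simp only [Set.mem_preimage, Set.mem_setOf_eq, hI]
  constructor
  · rintro ⟨j, hj, hjn, e⟩
    have := h.inj j hjn z.1.natAbs (by have := z.2; omega) e
    omega
  · intro hz
    exact ⟨_, hz, by have := z.2; omega, rfl⟩

theorem pre_lo {I : Iv M (Ac n)} (hI : ∀ z, I.pi z = v z.1.natAbs) (h : Pd M n v) (i : ℕ) :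
    I.pi ⁻¹' {b | ∃ j, j ≤ i ∧ j ≤ n ∧ v j = b} = {z : Cn n | z.1.natAbs ≤ i} := by
  ext z
  simp only [Set.mem_preimage, Set.mem_setOf_eq, hI]
  constructor
  · rintro ⟨j, hj, hjn, e⟩
    have := h.inj j hjn z.1.natAbs (by have := z.2; omega) e
    omega
  · intro hz
    exact ⟨_, hz, by have := z.2; omega, rfl⟩

/-- the sides of the path are of finite type -/
theorem fin_side (h : Pd M n v) {i : ℕ} (hi : i < n) : Finite (resM M {b | ∃ j, i < j ∧ j ≤ n ∧ v j = b}).Group := by
  obtain ⟨I, hI, -⟩ := ivC h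
  refine iv_finite I _ ?_
  rw [pre_up hI h]
  exact fin_up h.two hi

theorem fin_pl {n : ℕ} (hn : 1 ≤ n) : Finite (resM (Pl n) {z : Ln n | z.1 ≠ 0}).Group := by
  have h := pd_pl hn
  have h1 := fin_side h (i := n) (by omega)
  have h2 := fin_side h.rev (i := n) (by omega)
  have hM : ∀ i j : Ln n, Pl n i j ≠ 0 := by
    intro i j
    by_cases hij : i = j
    · rw [hij, (Pl n).diagonal]
      exact one_ne_zero
    · rw [pl_apply hij]
      split_ifs <;> norm_num
  have e1 : {b : Ln n | ∃ j, n < j ∧ j ≤ 2 * n ∧ vL n j = b} = {z : Ln n | 0 < z.1} := by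
    ext z
    simp only [Set.mem_setOf_eq]
    constructor
    · rintro ⟨j, hj, hjn, rfl⟩
      show (0 : ℤ) < (min j (2 * n) : ℕ) - (n : ℤ)
      omega
    · intro hz
      refine ⟨(z.1 + n).toNat, ?_, ?_, Subtype.ext ?_⟩
      · have := z.2; omega
      · have := z.2; omega
      · show ((min (z.1 + n).toNat (2 * n) : ℕ) : ℤ) - (n : ℤ) = z.1
        have := z.2
        omega
  have e2 : {b : Ln n | ∃ j, n < j ∧ j ≤ 2 * n ∧ vL n (2 * n - j) = b} = {z : Ln n | z.1 < 0} := by
    ext z
    simp only [Set.mem_setOf_eq]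
    constructor
    · rintro ⟨j, hj, hjn, rfl⟩
      show ((min (2 * n - j) (2 * n) : ℕ) : ℤ) - (n : ℤ) < 0
      omega
    · intro hz
      refine ⟨(n - z.1).toNat, ?_, ?_, Subtype.ext ?_⟩
      · have := z.2; omega
      · have := z.2; omega
      · show ((min (2 * n - (n - z.1).toNat) (2 * n) : ℕ) : ℤ) - (n : ℤ) = z.1
        have := z.2
        omega
  rw [e1] at h1
  rw [e2] at h2
  have e3 : {z : Ln n | z.1 ≠ 0} = {z : Ln n | 0 < z.1} ∪ {z : Ln n | z.1 < 0} := by
    ext z
    simp only [Set.mem_setOf_eq, Set.mem_union]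
    omega
  rw [e3]
  refine finr_union hM (fun i hi j hj => ?_) h1 h2
  have hi' : 0 < i.1 := hi
  have hj' : j.1 < 0 := hj
  rw [pl_apply (fun e => by rw [e] at hi'; omega), if_neg]
  rw [abs_of_pos (by omega)]
  omega

end Pool.Agent.H54.CT
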