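import Pool.Agent.H2.UF.Six
import Pool.Agent.H54.AF.Cmm

/-!
# [H54 CT IV] Foldings of Coxeter diagrams by an involution
-/

set_option autoImplicit false

namespace Pool.Agent.H54.CT

open Pool.H8.CDW Pool.Agent.H52.PAG Pool.Agent.H75.INF Pool.Agent.H54.TF Pool.Agent.H2.UF

/-- the diagram `M` is the quotient of the diagram `M'` by the involution `sg` -/
structure Iv {B B' : Type} (M : CoxeterMatrix B) (M' : CoxeterMatrix B') where
  /-- the projection -/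
  pi : B' → B
  /-- the involution -/
  sg : B' → B'
  surj : Function.Surjective pi
  inv : ∀ s, sg (sg s) = s
  fib : ∀ s t, pi s = pi t ↔ t = s ∨ t = sg s
  sym : ∀ s t, M' (sg s) (sg t) = M' s t
  own : ∀ s, sg s ≠ s → M' s (sg s) = 2
  lab : ∀ s t, pi s ≠ pi t → (M (pi s) (pi t) = 2 ∧ M' s t = 2) ∨
    (sg s ≠ s ∧ sg t ≠ t ∧ (M (pi s) (pi t) = M' s t ∧ M' s (sg t) = 2 ∨ M' s t = 2 ∧ M (pi s) (pi t) = M' s (sg t))) ∨
    (sg s = s ∧ sg t = t ∧ M (pi s) (pi t) = M' s t) ∨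
    (M (pi s) (pi t) = 4 ∧ M' s t = 3 ∧ (sg s = s ∧ sg t ≠ t ∨ sg s ≠ s ∧ sg t = t))

variable {B B' : Type} {M : CoxeterMatrix B} {M' : CoxeterMatrix B'}

theorem Iv.pi_sg (I : Iv M M') (s : B') : I.pi (I.sg s) = I.pi s := ((I.fib s (I.sg s)).2 (Or.inr rfl)).symm

/-- restriction to a subset -/
def Iv.res (I : Iv M M') (J : Set B) : Iv (resM M J) (resM M' (I.pi ⁻¹' J)) where
  pi := fun s => ⟨I.pi s.1, s.2⟩
  sg := fun s => ⟨I.sg s.1, by
    show I.pi (I.sg s.1) ∈ J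
    rw [I.pi_sg]
    exact s.2⟩
  surj := by
    rintro ⟨b, hb⟩
    obtain ⟨s, rfl⟩ := I.surj b
    exact ⟨⟨s, hb⟩, rfl⟩
  inv := fun s => Subtype.ext (I.inv s.1)
  fib := by
    intro s t
    rw [Subtype.ext_iff, Subtype.ext_iff, Subtype.ext_iff]
    exact I.fib s.1 t.1
  sym := fun s t => I.sym s.1 t.1
  own := fun s h => I.own s.1 fun e => h (Subtype.ext e)
  lab := by
    intro s t h
    have h1 : ∀ u v : (I.pi ⁻¹' J : Set B'), (u = v ↔ u.1 = v.1) := fun u v => Subtype.ext_iff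
    rcases I.lab s.1 t.1 (fun e => h (Subtype.ext e)) with h2 | h2 | h2 | h2
    · exact Or.inl h2
    · refine Or.inr (Or.inl ⟨?_, ?_, h2.2.2⟩)
      · rw [Ne, h1]
        exact h2.1
      · rw [Ne, h1]
        exact h2.2.1
    · refine Or.inr (Or.inr (Or.inl ⟨?_, ?_, h2.2.2⟩))
      · rw [h1]
        exact h2.1
      · rw [h1]
        exact h2.2.1
    · refine Or.inr (Or.inr (Or.inr ⟨h2.1, h2.2.1, ?_⟩))
      rw [Ne, Ne, h1, h1]
      exact h2.2.2

end Pool.Agent.H54.CT
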