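import Pool.Agent.H54.CT.Iv
import Pool.Agent.H54.AF.Blk

/-!
# [H54 CT CD] The path `4, 3, …, 3, 4`, the circuit and the doubled path
-/

set_option autoImplicit false

namespace Pool.Agent.H54.CT

open Pool.H8.CDW Pool.Agent.H52.PAG Pool.Agent.H75.INF Pool.Agent.H54.TF Pool.Agent.H54.AF Pool.Agent.H54.BS

/-- the path with the labels `4, 3, …, 3, 4` and the nodes `v 0, …, v n` -/
structure Pd {B : Type} (M : CoxeterMatrix B) (n : ℕ) (v : ℕ → B) : Prop where
  two : 2 ≤ n
  inj : ∀ i ≤ n, ∀ j ≤ n, v i = v j → i = j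
  surj : ∀ b, ∃ i ≤ n, v i = b
  lab : ∀ i j, i < j → j ≤ n → M (v i) (v j) = if j = i + 1 then (if i = 0 ∨ j = n then 4 else 3) else 2

/-- the nodes of the circuit -/
abbrev Cn (n : ℕ) : Type := {z : ℤ // -(n : ℤ) < z ∧ z ≤ n}

/-- the nodes of the doubled path -/
abbrev Ln (n : ℕ) : Type := {z : ℤ // -(n : ℤ) ≤ z ∧ z ≤ n}

/-- the circuit with `2 * n` nodes and labels `3` -/
def Ac (n : ℕ) : CoxeterMatrix (Cn n) where
  M := Matrix.of fun z w => if z = w then 1 else if |z.1 - w.1| = 1 ∨ |z.1 - w.1| = 2 * n - 1 then 3 else 2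
  isSymm := by
    unfold Matrix.IsSymm
    ext z w
    simp only [Matrix.transpose_apply, Matrix.of_apply, abs_sub_comm w.1 z.1, eq_comm (a := w) (b := z)]
  diagonal := fun z => by simp only [Matrix.of_apply, if_pos]
  off_diagonal := fun z w h => by
    simp only [Matrix.of_apply, if_neg h]
    split_ifs <;> decide

/-- the path `-n, …, n` with the labels `4, 3, …, 3, 4` -/
def Pl (n : ℕ) : CoxeterMatrix (Ln n) where
  M := Matrix.of fun z w => if z = w then 1 else if |z.1 - w.1| = 1 then (if |z.1| = n ∨ |w.1| = n then 4 else 3) else 2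
  isSymm := by
    unfold Matrix.IsSymm
    ext z w
    simp only [Matrix.transpose_apply, Matrix.of_apply, abs_sub_comm w.1 z.1, eq_comm (a := w) (b := z), or_comm (a := |w.1| = (n : ℤ))]
  diagonal := fun z => by simp only [Matrix.of_apply, if_pos]
  off_diagonal := fun z w h => by
    simp only [Matrix.of_apply, if_neg h]
    split_ifs <;> decide

theorem ac_apply {n : ℕ} {z w : Cn n} (h : z ≠ w) : Ac n z w = if |z.1 - w.1| = 1 ∨ |z.1 - w.1| = 2 * n - 1 then 3 else 2 := if_neg h

theorem pl_apply {n : ℕ} {z w : Ln n} (h : z ≠ w) :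
    Pl n z w = if |z.1 - w.1| = 1 then (if |z.1| = n ∨ |w.1| = n then 4 else 3) else 2 := if_neg h

variable {B : Type} {M : CoxeterMatrix B} {n : ℕ} {v : ℕ → B}

/-- the other direction -/
theorem Pd.rev (h : Pd M n v) : Pd M n fun i => v (n - i) := by
  refine ⟨h.two, fun i hi j hj e => ?_, fun b => ?_, fun i j hij hj => ?_⟩
  · have := h.inj _ (Nat.sub_le n i) _ (Nat.sub_le n j) e
    omega
  · obtain ⟨i, hi, rfl⟩ := h.surj b
    exact ⟨n - i, Nat.sub_le n i, by
      show v (n - (n - i)) = v i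
      rw [Nat.sub_sub_self hi]⟩
  · show M (v (n - i)) (v (n - j)) = _
    rw [M.symmetric, h.lab (n - j) (n - i) (by omega) (by omega)]
    by_cases h1 : j = i + 1
    · rw [if_pos h1, if_pos (show n - i = n - j + 1 by omega)]
      have h2 : (n - j = 0 ∨ n - i = n) ↔ (i = 0 ∨ j = n) := by omega
      simp only [h2]
    · rw [if_neg h1, if_neg (by omega)]

theorem Pd.ne (h : Pd M n v) {i j : ℕ} (hi : i ≤ n) (hj : j ≤ n) (hij : i ≠ j) : v i ≠ v j := fun e => hij (h.inj i hi j hj e)

/-- `Pth` in the form `Pd` -/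
theorem pd_of_pth (h : Pth M) : ∃ (n : ℕ) (v : ℕ → B), 3 ≤ n ∧ Pd M n v := by
  obtain ⟨n, hn, e, he⟩ := h
  refine ⟨n, fun i => e.symm ⟨min i n, by omega⟩, hn, by omega, fun i hi j hj h => ?_, fun b => ?_, fun i j hij hj => ?_⟩
  · have h1 := e.symm.injective h
    rw [Fin.mk.injEq, min_eq_left hi, min_eq_left hj] at h1
    exact h1
  · refine ⟨(e b).1, by have := (e b).2; omega, ?_⟩
    have h1 : (⟨min (e b).1 n, by omega⟩ : Fin (n + 1)) = e b := by
      apply Fin.ext
      show min (e b).1 n = _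
      have := (e b).2
      omega
    show e.symm ⟨min (e b).1 n, _⟩ = b
    rw [h1, e.symm_apply_apply]
  · have h1 := he (e.symm ⟨min i n, by omega⟩) (e.symm ⟨min j n, by omega⟩) (by
      rw [e.apply_symm_apply, e.apply_symm_apply]
      show min i n < min j n
      omega)
    rw [e.apply_symm_apply, e.apply_symm_apply] at h1
    show M (e.symm ⟨min i n, _⟩) (e.symm ⟨min j n, _⟩) = _
    rw [h1]
    show (if min j n = min i n + 1 then (if min i n = 0 ∨ min j n = n then 4 else 3) else 2) = _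
    rw [min_eq_left (show i ≤ n by omega), min_eq_left hj]

end Pool.Agent.H54.CT
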