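import Pool.Agent.H54.CT.Fo
import Pool.Agent.H54.CT.Fi

/-!
# [H54 CT DN] Descent under a folding by an involution, in a subset of finite type (45 min)

`exists_inc M J` gives `ι : Art (resM M J) →* Art M`, injective, `ι (gen k) = gen k.1`, range `ap M J`; `exists_inc M' J'` with `J' = I.pi ⁻¹' J` gives `ι'`. `exists_fold (I.res J)` gives `F'` with `F'.pi = (I.res J).pi` and the values on the
generators. `fold_finite F'`: `Finite (resM M J).Group`. `ι' (F'.fa z) = F.fa (ι z)` for all `z : Art (resM M J)`: check on the generators `gen k`, `k = (I.res J).pi s` (surjective): both sides are `gen s` or `gen s * gen (sg s)`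
(use `ap_induction` with `K = Set.univ`, `ap_univ`, or `PresentedGroup.ext`, or the hom ext lemma for `Art`). Let `x = ι z` (`hx` and the range). `F.fa x = ι' (F'.fa z) ∈ ap M' {t}ᶜ`, also in the range of `ι'`, that is `ap M' J'`; `ap_inter`:
in `ap M' (J' \ {t})`, so `F'.fa z ∈ ap (resM M' J') {⟨t, ht⟩}ᶜ` (`Subgroup.mem_map_iff_mem` with `(ap (resM M' J') L).map ι' = ap M' (Subtype.val '' L)`, see the private `map_ap` in H54/BS/Res). `Fold.mem_of_mem` for `F'`:
`z ∈ ap (resM M J) {F'.pi ⟨t, ht⟩}ᶜ`, so `x = ι z ∈ ap M (J \ {I.pi t})`.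
-/

set_option autoImplicit false

namespace Pool.Agent.H54.CT

open Pool.H8.CDW Pool.Agent.H52.PAG Pool.Agent.H75.INF Pool.Agent.H54.TF Pool.Agent.H2.UF

variable {B B' : Type} {M : CoxeterMatrix B} {M' : CoxeterMatrix B'}

private theorem map_ap {B : Type} {M : CoxeterMatrix B} {K : Set B} {L : Set K} (ι : Art (resM M K) →* Art M)
    (hg : ∀ k : K, ι (gen (resM M K) k) = gen M k.1) :
    (ap (resM M K) L).map ι = ap M (Subtype.val '' L) := by
  unfold ap
  rw [MonoidHom.map_closure]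
  congr 1
  ext x
  constructor
  · rintro ⟨_, ⟨k, hk, rfl⟩, rfl⟩
    exact ⟨k.1, ⟨k, hk, rfl⟩, (hg k).symm⟩
  · rintro ⟨_, ⟨k, hk, rfl⟩, rfl⟩
    exact ⟨_, ⟨k, hk, rfl⟩, hg k⟩

open Classical in
theorem dn (I : Iv M M') (F : Fold M M')
    (hF : ∀ s, F.fa (gen M (I.pi s)) = if I.sg s = s then gen M' s else gen M' s * gen M' (I.sg s)) (J : Set B)
    (hf : Finite (resM M' (I.pi ⁻¹' J)).Group) {x : Art M} (hx : x ∈ ap M J) {t : B'} (ht : I.pi t ∈ J)
    (h : F.fa x ∈ ap M' ({t}ᶜ : Set B')) : x ∈ ap M (J \ {I.pi t}) := by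
  obtain ⟨ι, hi, hg, hr⟩ := exists_inc (M := M) J
  obtain ⟨ι', hi', hg', hr'⟩ := exists_inc (M := M') (I.pi ⁻¹' J)
  obtain ⟨F', hpi, hF'⟩ := exists_fold (I.res J)
  have hfin : Finite (resM M J).Group := fold_finite F' (by rw [hpi]; exact (I.res J).surj) hf
  have hgen : ∀ k : J, ι' (F'.fa (gen (resM M J) k)) = F.fa (ι (gen (resM M J) k)) := by
    intro k
    obtain ⟨s, rfl⟩ := (I.res J).surj k
    have e1 : ι (gen (resM M J) ((I.res J).pi s)) = gen M (I.pi s.1) := hg _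
    rw [hF' s, e1, hF s.1]
    by_cases hs : (I.res J).sg s = s
    · have hs' : I.sg s.1 = s.1 := congrArg Subtype.val hs
      rw [if_pos hs, if_pos hs', hg']
    · have hs' : ¬ I.sg s.1 = s.1 := fun e => hs (Subtype.ext e)
      rw [if_neg hs, if_neg hs', map_mul, hg', hg']
      rfl
  have hcomm : ∀ z : Art (resM M J), ι' (F'.fa z) = F.fa (ι z) := by
    intro z
    refine ap_induction (K := Set.univ) (P := fun z => ι' (F'.fa z) = F.fa (ι z)) ?_ ?_ ?_
      (by rw [ap_univ]; trivial)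
    · rw [map_one, map_one, map_one, map_one]
    · intro z _ k _ hz
      rw [map_mul, map_mul, map_mul, map_mul, hz, hgen k]
    · intro z _ k _ hz
      rw [map_mul, map_mul, map_mul, map_mul, hz, map_inv, map_inv, map_inv, map_inv, hgen k]
  rw [← hr] at hx
  obtain ⟨z, rfl⟩ := hx
  have h1 : ι' (F'.fa z) ∈ ap M' (Subtype.val '' ({⟨t, ht⟩}ᶜ : Set (I.pi ⁻¹' J : Set B'))) := by
    have h2 : ι' (F'.fa z) ∈ ap M' (I.pi ⁻¹' J) := by
      rw [← hr']
      exact ⟨_, rfl⟩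
    have h3 : ι' (F'.fa z) ∈ ap M' ({t}ᶜ : Set B') := by
      rw [hcomm]
      exact h
    have h4 : ι' (F'.fa z) ∈ ap M' ((I.pi ⁻¹' J) ∩ ({t}ᶜ : Set B')) := by
      rw [← ap_inter]
      exact ⟨h2, h3⟩
    refine ap_mono ?_ h4
    rintro b ⟨hb1, hb2⟩
    exact ⟨⟨b, hb1⟩, fun e => hb2 (congrArg Subtype.val e), rfl⟩
  rw [← map_ap ι' hg', Subgroup.mem_map_iff_mem hi'] at h1
  have h2 := F'.mem_of_mem h1
  have h3 : ι z ∈ ap M (Subtype.val '' ({F'.pi ⟨t, ht⟩}ᶜ : Set J)) := by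
    rw [← map_ap ι hg]
    exact Subgroup.mem_map_of_mem ι h2
  refine ap_mono ?_ h3
  rintro _ ⟨k, hk, rfl⟩
  refine ⟨k.2, fun e => hk ?_⟩
  rw [hpi]
  exact Subtype.ext e

end Pool.Agent.H54.CT
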