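import Pool.Agent.H54.CT.Cd

/-!
# [H54 CT IC] The path as a quotient of the circuit (45 min)

`pi z = v z.1.natAbs`, `sg z = if z.1 = n then z else -z` (in range since `-n < z < n`). Fixed: `z = 0` and `z = n`. `surj` from `h.surj` (`z = i`). `fib`: `h.inj`: `natAbs` equal iff `w = z` or `w = -z`; for `z = n`: `w.natAbs = n` and
`-n < w` give `w = n`. `sym`: `ac_apply`: `z = n`, `w ≠ n`: `|n - w| = 1` iff `w = n - 1` iff `|n - (-w)| = 2 n - 1`, etc. (`abs` by cases, `omega` after `split_ifs` / `abs_lt`-free: use `rcases abs_cases`). `own`: `|2 z|` is even and not `1`,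
`2 n - 1` odd, so the label is `2`. `lab z w`, `i = z.natAbs ≠ j = w.natAbs`: `M (v i) (v j)` from `h.lab` (with `M.symmetric` if `j < i`):
`i + 1 < j` (or `j + 1 < i`): both labels `2` (first case; `|z - w|` is `j - i` or `i + j`; `i + j = 2 n - 1` would need `j = n`, `i = n - 1`).
`j = i + 1`: `i > 0`, `j < n`: second case: `M = 3`; same sign: `M' z w = 3`, `M' z (-w) = 2` (`|z + w| = 2 i + 1`, not `1`, not `2 n - 1`), different sign: the other way. `i = 0` (`j = 1 < n`): last case, `M = 4`, `M' = 3`, `z` fixed, `w` not;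
`j = n` (`i = n - 1 > 0`): last case, `w = n` fixed, `|z - n| = 1` or `2 n - 1`. Suggestion: first a private lemma with integers only for each case, closed by `omega`.
-/

set_option autoImplicit false

namespace Pool.Agent.H54.CT

open Pool.H8.CDW

variable {B : Type} {M : CoxeterMatrix B} {n : ℕ} {v : ℕ → B}

/-- the labels of the path, symmetric form -/
private theorem mv (h : Pd M n v) (i j : ℕ) (hi : i ≤ n) (hj : j ≤ n) (hij : i ≠ j) :
    M (v i) (v j) = if j = i + 1 ∨ i = j + 1 then (if i = 0 ∨ j = 0 ∨ i = n ∨ j = n then 4 else 3) else 2 := by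
  have h2 := h.two
  rcases Nat.lt_or_gt_of_ne hij with h1 | h1
  · rw [h.lab i j h1 hj]
    by_cases h3 : j = i + 1
    · rw [if_pos h3, if_pos (Or.inl h3)]
      have h4 : (i = 0 ∨ j = n) ↔ (i = 0 ∨ j = 0 ∨ i = n ∨ j = n) := by omega
      simp only [h4]
    · rw [if_neg h3, if_neg (by omega)]
  · rw [M.symmetric, h.lab j i h1 hi]
    by_cases h3 : i = j + 1
    · rw [if_pos h3, if_pos (Or.inr h3)]
      have h4 : (j = 0 ∨ i = n) ↔ (i = 0 ∨ j = 0 ∨ i = n ∨ j = n) := by omega
      simp only [h4]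
    · rw [if_neg h3, if_neg (by omega)]

private theorem av (hn : 2 ≤ n) {z w : Cn n} (h : z ≠ w) :
    Ac n z w = if (z.1 - w.1 = 1 ∨ z.1 - w.1 = -1 ∨ z.1 - w.1 = 2 * n - 1 ∨ z.1 - w.1 = -(2 * n - 1)) then 3 else 2 := by
  rw [ac_apply h]
  have h1 : (|z.1 - w.1| = 1 ∨ |z.1 - w.1| = 2 * n - 1) ↔
      (z.1 - w.1 = 1 ∨ z.1 - w.1 = -1 ∨ z.1 - w.1 = 2 * n - 1 ∨ z.1 - w.1 = -(2 * n - 1)) := by
    rw [abs_eq (by norm_num), abs_eq (by omega), or_assoc]
  simp only [h1]

private def sgc (n : ℕ) (z : Cn n) : Cn n :=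
  if h : z.1 = n then z else ⟨-z.1, by have := z.2; omega⟩

private theorem sgc_val (z : Cn n) : (sgc n z).1 = if z.1 = n then (n : ℤ) else -z.1 := by
  unfold sgc
  by_cases h : z.1 = n
  · rw [dif_pos h, if_pos h, h]
  · rw [dif_neg h, if_neg h]

private theorem sgc_fix (hn : 2 ≤ n) (z : Cn n) : sgc n z = z ↔ (z.1 = 0 ∨ z.1 = n) := by
  rw [Subtype.ext_iff, sgc_val]
  by_cases h : z.1 = n
  · rw [if_pos h]
    omega
  · rw [if_neg h]
    omega

theorem ivC (h : Pd M n v) : ∃ I : Iv M (Ac n), (∀ z, I.pi z = v z.1.natAbs) ∧ ∀ z, (I.sg z).1 = if z.1 = n then (n : ℤ) else -z.1 := by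
  have hn := h.two
  have hfib : ∀ s t : Cn n, v s.1.natAbs = v t.1.natAbs ↔ t = s ∨ t = sgc n s := by
    intro s t
    have hs := s.2
    have ht := t.2
    have h1 : v s.1.natAbs = v t.1.natAbs ↔ s.1.natAbs = t.1.natAbs :=
      ⟨fun e => h.inj _ (by omega) _ (by omega) e, fun e => by rw [e]⟩
    rw [h1, Subtype.ext_iff, Subtype.ext_iff, sgc_val]
    by_cases h2 : s.1 = n
    · rw [if_pos h2]
      omega
    · rw [if_neg h2]
      omega
  refine ⟨⟨fun z => v z.1.natAbs, sgc n, ?_, ?_, hfib, ?_, ?_, ?_⟩, fun z => rfl, fun z => sgc_val z⟩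
  · intro b
    obtain ⟨i, hi, rfl⟩ := h.surj b
    exact ⟨⟨(i : ℤ), by omega⟩, rfl⟩
  · intro s
    rw [Subtype.ext_iff, sgc_val, sgc_val]
    by_cases h2 : s.1 = n
    · rw [if_pos h2, if_pos rfl, h2]
    · have hs := s.2
      rw [if_neg h2, if_neg (by omega), neg_neg]
  · intro s t
    by_cases he : s = t
    · rw [he, (Ac n).diagonal, (Ac n).diagonal]
    · have he1 : s.1 ≠ t.1 := fun e => he (Subtype.ext e)
      have hs := s.2
      have ht := t.2
      have hv1 := sgc_val s
      have hv2 := sgc_val t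
      have he2 : sgc n s ≠ sgc n t := by
        intro e
        rw [Subtype.ext_iff, hv1, hv2] at e
        split_ifs at e <;> omega
      rw [av hn he, av hn he2]
      have h3 : ((sgc n s).1 - (sgc n t).1 = 1 ∨ (sgc n s).1 - (sgc n t).1 = -1 ∨ (sgc n s).1 - (sgc n t).1 = 2 * n - 1 ∨
          (sgc n s).1 - (sgc n t).1 = -(2 * n - 1)) ↔
          (s.1 - t.1 = 1 ∨ s.1 - t.1 = -1 ∨ s.1 - t.1 = 2 * n - 1 ∨ s.1 - t.1 = -(2 * n - 1)) := by
        rw [hv1, hv2]
        split_ifs <;> omega
      simp only [h3]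
  · intro s hs
    have hv := sgc_val s
    have hf := fun e => hs ((sgc_fix hn s).2 e)
    have h1 : ¬ s.1 = n := fun e => hf (Or.inr e)
    rw [if_neg h1] at hv
    rw [av hn (fun e => hs e.symm), if_neg]
    rw [hv]
    have := s.2
    omega
  · intro s t hst
    have hs := s.2
    have ht := t.2
    have hij : s.1.natAbs ≠ t.1.natAbs := fun e => hst (congrArg v e)
    have hM := mv h s.1.natAbs t.1.natAbs (by omega) (by omega) hij
    have hne : s ≠ t := fun e => hij (by rw [e])
    have hA := av hn hne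
    by_cases h1 : t.1.natAbs = s.1.natAbs + 1 ∨ s.1.natAbs = t.1.natAbs + 1
    · rw [if_pos h1] at hM
      by_cases h2 : s.1.natAbs = 0 ∨ t.1.natAbs = 0 ∨ s.1.natAbs = n ∨ t.1.natAbs = n
      · rw [if_pos h2] at hM
        refine Or.inr (Or.inr (Or.inr ⟨hM, ?_, ?_⟩))
        · rw [hA, if_pos]
          omega
        · rw [Ne, Ne, sgc_fix hn, sgc_fix hn]
          omega
      · rw [if_neg h2] at hM
        have h3 : ¬ sgc n t = t := by
          rw [sgc_fix hn]
          omega
        have hv := sgc_val t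
        rw [if_neg (show ¬ t.1 = n by omega)] at hv
        have hne2 : s ≠ sgc n t := by
          intro e
          rw [Subtype.ext_iff, hv] at e
          omega
        have hA2 := av hn hne2
        rw [hv] at hA2
        refine Or.inr (Or.inl ⟨?_, h3, ?_⟩)
        · rw [Ne, sgc_fix hn]
          omega
        · by_cases h4 : s.1 - t.1 = 1 ∨ s.1 - t.1 = -1
          · left
            rw [hA, hA2, if_pos (by omega), if_neg (by omega)]
            exact ⟨hM, rfl⟩
          · right
            rw [hA, hA2, if_neg (by omega), if_pos (by omega)]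
            exact ⟨rfl, hM⟩
    · rw [if_neg h1] at hM
      left
      refine ⟨hM, ?_⟩
      rw [hA, if_neg]
      omega

end Pool.Agent.H54.CT
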