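import Pool.Agent.H54.CT.Gp
import Pool.Agent.H88.DT.Main

/-!
# [H54 CT ST] POLY for the stars: four leaves with labels `3`, three leaves with labels `3, 3, 4`
-/

set_option autoImplicit false

namespace Pool.Agent.H54.CT

open CoxeterSystem Pool.H8.CDW Pool.Agent.H52.PAG Pool.Agent.H75.INF Pool.Agent.H54.TF Pool.Agent.H2.UF Pool.Agent.H54.AF
  Pool.Agent.H54.BS Pool.Agent.H52.VK Pool.Agent.H34.TG Pool.Agent.H88.DT

variable {B : Type} {M : CoxeterMatrix B}

/-- a graph in which all edges contain `o` is a forest -/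
theorem star_forest {o : B} (h : ∀ b c, b ≠ o → c ≠ o → b ≠ c → M b c = 2) : Forest M := by
  have he : ∀ b c, 3 ≤ M b c → b = o ∨ c = o := by
    intro b c hbc
    by_contra hcon
    rw [not_or] at hcon
    have hne : b ≠ c := by
      rintro rfl
      rw [M.diagonal] at hbc
      omega
    rw [h b c hcon.1 hcon.2 hne] at hbc
    omega
  intro b c hbc hp
  have hne : b ≠ c := by
    rintro rfl
    rw [M.diagonal] at hbc
    omega
  rcases he b c hbc with hb | hc
  · rcases Relation.ReflTransGen.cases_tail hp with e | ⟨x, -, h3, h4, h5⟩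
    · exact hne e.symm
    · rcases he x c h3 with hx | hx
      · exact h4 ⟨hx.trans hb.symm, rfl⟩
      · exact hne (hb.trans hx.symm)
  · rcases Relation.ReflTransGen.cases_head hp with e | ⟨x, ⟨h3, h4, h5⟩, -⟩
    · exact hne e
    · rcases he b x h3 with hx | hx
      · exact hne (hx.trans hc.symm)
      · exact h4 ⟨rfl, hx.trans hc.symm⟩

theorem star_of_str {e : B ≃ Fin 5} (h : ∀ i j, i ≠ j → M i j = if e i = 0 ∨ e j = 0 then 3 else 2) : Star M e.symm where
  surj := e.symm.surjective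
  cen := by
    intro i hi
    rw [h _ _ (fun h1 => hi (e.symm.injective h1).symm), if_pos (Or.inl (e.apply_symm_apply 0))]
  lea := by
    intro i j hi hj hij
    rw [h _ _ (fun h1 => hij (e.symm.injective h1)), e.apply_symm_apply, e.apply_symm_apply, if_neg]
    rintro (h1 | h1)
    · exact hi h1
    · exact hj h1

/-- POLY for the star with four leaves -/
theorem pstr (B : Type) (M : CoxeterMatrix B) (h : Str M) : PolF M Set.univ := by
  obtain ⟨e, he⟩ := h
  have hv : ∀ i j, M i j = 1 ∨ M i j = 2 ∨ M i j = 3 := by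
    intro i j
    by_cases hij : i = j
    · rw [hij, M.diagonal]
      exact Or.inl rfl
    · rw [he i j hij]
      split_ifs
      · exact Or.inr (Or.inr rfl)
      · exact Or.inr (Or.inl rfl)
  refine polF_tree ?_ ?_ (star_forest (o := e.symm 0) ?_) (fun b c hbc => gs_star (star_of_str he) hbc) ?_
  · intro i j
    have := hv i j
    omega
  · intro i j
    have := hv i j
    omega
  · intro b c hb hc hbc
    rw [he b c hbc, if_neg]
    rintro (h1 | h1)
    · exact hb (by rw [← h1, e.symm_apply_apply])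
    · exact hc (by rw [← h1, e.symm_apply_apply])
  · intro b c hbc
    have := hv b c
    omega

/-- the labels of the star with four leaves -/
def l5 (i j : Fin 5) : ℕ := if i = j then 1 else if i = 0 ∨ j = 0 then 3 else 2

/-- the star with four leaves -/
def St5 : CoxeterMatrix (Fin 5) where
  M := l5
  isSymm := by
    have h : ∀ i j, l5 j i = l5 i j := by decide
    ext i j
    exact h i j
  diagonal := by
    have h : ∀ i, l5 i i = 1 := by decide
    exact h
  off_diagonal := by
    have h : ∀ i j, i ≠ j → l5 i j ≠ 1 := by decide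
    exact h

theorem star_st5 : Star St5 id where
  surj := Function.surjective_id
  cen := by
    have h : ∀ i, i ≠ 0 → l5 0 i = 3 := by decide
    exact h
  lea := by
    have h : ∀ i j, i ≠ 0 → j ≠ 0 → i ≠ j → l5 i j = 2 := by decide
    exact h

theorem st5_ne (i j : Fin 5) : St5 i j ≠ 0 := by
  have h : ∀ i j, l5 i j ≠ 0 := by decide
  exact h i j

/-- three leaves: finite type -/
theorem fin_st5 {k : Fin 5} (hk : k ≠ 0) : Finite (resM St5 ({k}ᶜ : Set (Fin 5))).Group := by
  have key : ∀ k : Fin 5, k ≠ 0 → ∃ p q r : Fin 5, p ≠ k ∧ q ≠ k ∧ r ≠ k ∧ (∀ b, b ≠ k → b = 0 ∨ b = p ∨ b = q ∨ b = r) ∧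
      l5 0 p = 3 ∧ l5 0 q = 3 ∧ l5 0 r = 3 ∧ l5 p q = 2 ∧ l5 p r = 2 ∧ l5 q r = 2 := by
    decide
  obtain ⟨p, q, r, hp, hq, hr, hB, h1, h2, h3, h4, h5, h6⟩ := key k hk
  refine finite_star (resM St5 ({k}ᶜ : Set (Fin 5))) (c := ⟨0, fun e => hk e.symm⟩) (p := ⟨p, hp⟩) (q := ⟨q, hq⟩) (r := ⟨r, hr⟩) ?_
    h1 h2 h3 h4 h5 h6
  rintro ⟨b, hb⟩
  rcases hB b hb with e | e | e | e
  · exact Or.inl (Subtype.ext e)
  · exact Or.inr (Or.inl (Subtype.ext e))
  · exact Or.inr (Or.inr (Or.inl (Subtype.ext e)))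
  · exact Or.inr (Or.inr (Or.inr (Subtype.ext e)))

theorem fin_sub {K : Set (Fin 5)} {k : Fin 5} (hk : k ≠ 0) (hK : k ∉ K) : Finite (resM St5 K).Group := by
  have h1 := (finr_iff st5_ne _).1 (fin_st5 hk)
  refine (finr_iff st5_ne _).2 ?_
  have h2 : par St5.toCoxeterSystem K ≤ par St5.toCoxeterSystem ({k}ᶜ : Set (Fin 5)) :=
    par_mono St5.toCoxeterSystem fun j hj e => hK (by rw [← (show j = k from e)]; exact hj)
  exact Finite.of_injective _ (Subgroup.inclusion_injective h2)

/-- the labels of the star with three leaves -/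
def lf (i j : Fin 4) : ℕ := if i = j then 1 else if i = 0 ∨ j = 0 then (if i = 3 ∨ j = 3 then 4 else 3) else 2

/-- the projection -/
def qf : Fin 5 → Fin 4 := ![0, 1, 2, 3, 3]

/-- the involution -/
def sf : Fin 5 → Fin 5 := ![0, 1, 2, 4, 3]

/-- the star with four leaves over the star with three leaves -/
def ivS (e : B ≃ Fin 4) (h : ∀ i j, M i j = lf (e i) (e j)) : Iv M St5 where
  pi := fun s => e.symm (qf s)
  sg := sf
  surj := by
    intro b
    obtain ⟨s, hs⟩ : ∃ s : Fin 5, qf s = e b := by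
      have : ∀ i : Fin 4, ∃ s : Fin 5, qf s = i := by decide
      exact this _
    refine ⟨s, ?_⟩
    show e.symm (qf s) = b
    rw [hs, e.symm_apply_apply]
  inv := by decide
  fib := by
    intro s t
    rw [e.symm.injective.eq_iff]
    revert s t
    decide
  sym := by
    have h : ∀ s t, l5 (sf s) (sf t) = l5 s t := by decide
    exact h
  own := by
    have h : ∀ s, sf s ≠ s → l5 s (sf s) = 2 := by decide
    exact h
  lab := by
    intro s t hst
    have h1 : M (e.symm (qf s)) (e.symm (qf t)) = lf (qf s) (qf t) := by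
      rw [h, e.apply_symm_apply, e.apply_symm_apply]
    rw [h1]
    have h2 : qf s ≠ qf t := fun h3 => hst (by rw [h3])
    have h3 : ∀ s t, qf s ≠ qf t → (lf (qf s) (qf t) = 2 ∧ l5 s t = 2) ∨
      (sf s ≠ s ∧ sf t ≠ t ∧ (lf (qf s) (qf t) = l5 s t ∧ l5 s (sf t) = 2 ∨ l5 s t = 2 ∧ lf (qf s) (qf t) = l5 s (sf t))) ∨
      (sf s = s ∧ sf t = t ∧ lf (qf s) (qf t) = l5 s t) ∨
      (lf (qf s) (qf t) = 4 ∧ l5 s t = 3 ∧ (sf s = s ∧ sf t ≠ t ∨ sf s ≠ s ∧ sf t = t)) := by decide
    exact h3 s t h2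

end Pool.Agent.H54.CT
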